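import Pool.Agent.LibN78.C9
import Pool.Agent.LibN78.A2

namespace TP55

open N78

/-- the pairs of `Box H` whose curve `y^2 = x (x^2 + a x + b)` has an integral point with `y ≠ 0` and
`|x| ≤ X` -/
def BadX (H : ℕ) (X : ℝ) : Set (ℤ × ℤ) :=
  {z | z ∈ Box H ∧ ∃ x y : ℤ, y ≠ 0 ∧ y ^ 2 = x * (x ^ 2 + z.1 * x + z.2) ∧ |(x : ℝ)| ≤ X}

/-- the pairs of `Fam H` whose curve `y^2 = x^3 + A x + B` has an integral point with `y ≠ 0` and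
`|x| ≤ X` -/
def FamX (H : ℕ) (X : ℝ) : Set (ℤ × ℤ) :=
  {z | z ∈ Fam H ∧ ∃ x y : ℤ, y ≠ 0 ∧ y ^ 2 = x ^ 3 + z.1 * x + z.2 ∧ |(x : ℝ)| ≤ X}

/-- the vectors `(a, w, m)` of scale `j`, `m` a nonzero square -/
def Vec (H : ℕ) (d : ℤ) (j : ℕ) : Set (ℤ × ℤ × ℤ) :=
  {v | |v.1| ≤ (H : ℤ) ∧ |lam d v.1 v.2.1 v.2.2| ≤ 9 * H * 4 ^ j ∧
      |lam' d v.1 v.2.1 v.2.2| ≤ 3 * H / 4 ^ j ∧ IsSquare v.2.2 ∧ v.2.2 ≠ 0 ∧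
      ee d v.1 v.2.1 v.2.2 ≠ 0 ∧ |d * ee d v.1 v.2.1 v.2.2| ≤ (H : ℤ) ^ 2}

end TP55
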