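import Pool.Agent.LibHLP.DivBound

/-!
ROW [TP55 L1].  Many values `v^2 - u^4 - 3 r u^2` for one `r`.
PROOF.  `U = ⌊√H/4⌋` (i.e. `16 U^2 ≤ H`), `V = H/8`, `1 ≤ r ≤ H/8`; `E u = {v^2 - u^4 - 3 r u^2 : 1 ≤ v ≤ V}` has `V` elements
(`v ↦ v^2` is injective on the positive integers).  For `1 ≤ u < u' ≤ U`: an element of `E u ∩ E u'` gives `v, v'` with
`v'^2 - v^2 = N := (u'^2 - u^2)(u'^2 + u^2 + 3r) > 0`, and `v' + v` is a positive divisor of `N` which determines `v` (`v' - v = N/(v' + v)`), so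
`#(E u ∩ E u') ≤ τ(N) ≤ C N^(1/8) ≤ C H^(1/4)` (`exists_card_divisors_le (1/8)`; `N ≤ (H/16) * H ≤ H^2`).  So
`#⋃ E u ≥ U V - U^2 C H^(1/4)` (induction on `U`, or `∑ #E u ≤ #⋃ + ∑_{u<u'} #(E u ∩ E u')`), `≥ c H √H` for `H ≥ H₀`
(`U V ≥ H √H/100`, `U^2 H^(1/4) ≤ H^(5/4)`).
-/

open Finset Filter

namespace TP55

/-- the values `v^2 - u^4 - 3 r u^2`, `1 ≤ u`, `16 u^2 ≤ H`, `1 ≤ v`, `8 v ≤ H` -/
def Val (H : ℕ) (r : ℤ) : Set ℤ :=
  {e | ∃ u v : ℤ, 1 ≤ u ∧ 16 * u ^ 2 ≤ H ∧ 1 ≤ v ∧ 8 * v ≤ H ∧ e = v ^ 2 - u ^ 4 - 3 * r * u ^ 2}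

theorem val_finite (H : ℕ) (r : ℤ) : (Val H r).Finite := by
  refine ((Finset.Icc (1 : ℤ) H ×ˢ Finset.Icc (1 : ℤ) H).image
    (fun t : ℤ × ℤ => t.2 ^ 2 - t.1 ^ 4 - 3 * r * t.1 ^ 2)).finite_toSet.subset ?_
  rintro e ⟨u, v, hu, hu2, hv, hv2, rfl⟩
  rw [Finset.mem_coe, Finset.mem_image]
  refine ⟨(u, v), ?_, rfl⟩
  rw [Finset.mem_product, Finset.mem_Icc, Finset.mem_Icc]
  refine ⟨⟨hu, ?_⟩, hv, by show v ≤ (H : ℤ); omega⟩
  show u ≤ (H : ℤ)
  nlinarith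

/-- the values for one `u` -/
private def L1E (V : ℕ) (r : ℤ) (u : ℕ) : Finset ℤ :=
  (Finset.Icc 1 V).image (fun v : ℕ => (v : ℤ) ^ 2 - (u : ℤ) ^ 4 - 3 * r * (u : ℤ) ^ 2)

private theorem L1E_card (V : ℕ) (r : ℤ) (u : ℕ) : (L1E V r u).card = V := by
  unfold L1E
  rw [Finset.card_image_of_injective, Nat.card_Icc]
  · omega
  · intro v v' h
    have h1 : (v : ℤ) ^ 2 = (v' : ℤ) ^ 2 := by
      simp only at h
      linarith
    have h2 : (v : ℤ) = v' := by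
      have := sq_eq_sq_iff_eq_or_eq_neg.1 h1
      rcases this with h | h <;> omega
    exact_mod_cast h2

/-- Common values of `E u` and `E u'` come from the divisors of one number. -/
private theorem L1E_inter {V : ℕ} {r : ℤ} {u u' : ℕ} (hr : 1 ≤ r) (hu : u < u') :
    ((L1E V r u ∩ L1E V r u').card : ℕ) ≤
      ((((u' : ℤ) ^ 2 - (u : ℤ) ^ 2) * ((u' : ℤ) ^ 2 + (u : ℤ) ^ 2 + 3 * r)).natAbs.divisors).card := by
  set N : ℤ := ((u' : ℤ) ^ 2 - (u : ℤ) ^ 2) * ((u' : ℤ) ^ 2 + (u : ℤ) ^ 2 + 3 * r) with hN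
  have hu' : (u : ℤ) < u' := by exact_mod_cast hu
  have hu0 : (0 : ℤ) ≤ u := by positivity
  have hN0 : 0 < N := by
    apply mul_pos
    · nlinarith
    · positivity
  have hdat : ∀ e ∈ L1E V r u ∩ L1E V r u', ∃ v v' : ℕ, 1 ≤ v ∧ 1 ≤ v' ∧
      e = (v : ℤ) ^ 2 - (u : ℤ) ^ 4 - 3 * r * (u : ℤ) ^ 2 ∧ (v' : ℤ) ^ 2 - (v : ℤ) ^ 2 = N := by
    intro e he
    obtain ⟨h1, h2⟩ := Finset.mem_inter.1 he
    unfold L1E at h1 h2
    obtain ⟨v, hv, h3⟩ := Finset.mem_image.1 h1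
    obtain ⟨v', hv', h4⟩ := Finset.mem_image.1 h2
    refine ⟨v, v', (Finset.mem_Icc.1 hv).1, (Finset.mem_Icc.1 hv').1, h3.symm, ?_⟩
    rw [← h4] at h3
    rw [hN]
    linear_combination -h3
  choose! v v' hv hv' he hvN using hdat
  refine Finset.card_le_card_of_injOn (fun e => v e + v' e) ?_ ?_
  · intro e hee
    have h1 := hvN e hee
    rw [Finset.mem_coe, Nat.mem_divisors]
    refine ⟨?_, by rw [Int.natAbs_ne_zero]; exact hN0.ne'⟩
    rw [← Int.natCast_dvd]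
    refine ⟨(v' e : ℤ) - v e, ?_⟩
    rw [← h1]
    push_cast
    ring
  · intro e hee e' hee' h
    have h1 := hvN e hee
    have h2 := hvN e' hee'
    have h3 : (v e : ℤ) + v' e = (v e' : ℤ) + v' e' := by
      simp only at h
      exact_mod_cast h
    have h4 : 0 < (v e : ℤ) + v' e := by
      have := hv e hee
      omega
    have h5 : ((v e : ℤ) + v' e) * ((v' e : ℤ) - v e) = ((v e : ℤ) + v' e) * ((v' e' : ℤ) - v e') := by
      have h6 : ((v e : ℤ) + v' e) * ((v' e : ℤ) - v e) = N := by rw [← h1]; ring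
      have h7 : ((v e : ℤ) + v' e) * ((v' e' : ℤ) - v e') = N := by rw [h3, ← h2]; ring
      rw [h6, h7]
    have h8 := mul_left_cancel₀ h4.ne' h5
    have h9 : (v e : ℤ) = v e' := by linarith
    rw [he e hee, he e' hee', h9]

/-- The union of `U` sets with `V` elements and small intersections. -/
private theorem L1_union {V D : ℕ} (E : ℕ → Finset ℤ) (hE : ∀ u, (E u).card = V) (U : ℕ)
    (hI : ∀ u u', 1 ≤ u → u < u' → u' ≤ U → (E u ∩ E u').card ≤ D) :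
    U * V ≤ ((Finset.Icc 1 U).biUnion E).card + U ^ 2 * D := by
  induction U with
  | zero => simp
  | succ n ih =>
    have h1 := ih fun u u' h1 h2 h3 => hI u u' h1 h2 (h3.trans (Nat.le_succ n))
    have h2 : (Finset.Icc 1 (n + 1)).biUnion E = (Finset.Icc 1 n).biUnion E ∪ E (n + 1) := by
      rw [← Finset.insert_Icc_right_eq_Icc_add_one (by omega), Finset.biUnion_insert,
        Finset.union_comm]
    have h3 : ((Finset.Icc 1 n).biUnion E ∩ E (n + 1)).card ≤ n * D := by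
      rw [Finset.biUnion_inter]
      refine Finset.card_biUnion_le.trans ?_
      calc ∑ u ∈ Finset.Icc 1 n, (E u ∩ E (n + 1)).card ≤ ∑ u ∈ Finset.Icc 1 n, D := by
            refine Finset.sum_le_sum fun u hu => ?_
            obtain ⟨h4, h5⟩ := Finset.mem_Icc.1 hu
            exact hI u (n + 1) h4 (by omega) le_rfl
        _ = n * D := by simp
    have h4 := Finset.card_union_add_card_inter ((Finset.Icc 1 n).biUnion E) (E (n + 1))
    rw [h2]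
    rw [hE] at h4
    nlinarith

private theorem L1_arith {C : ℝ} (hC : 1 ≤ C) : ∃ H₀ : ℕ, ∀ (H : ℕ) (U V D : ℕ) (Z : ℝ), H₀ ≤ H →
    U = Nat.sqrt (H / 16) → V = H / 8 → (D : ℝ) ≤ C * ((H : ℝ) ^ 2) ^ (1 / 8 : ℝ) →
    (U : ℝ) * V ≤ Z + (U : ℝ) ^ 2 * D → 1 / 200 * ((H : ℝ) * √(H : ℝ)) ≤ Z := by
  have h0 : Tendsto (fun H : ℕ => (H : ℝ) ^ (1 / 4 : ℝ)) atTop atTop :=
    (tendsto_rpow_atTop (by norm_num)).comp tendsto_natCast_atTop_atTop
  obtain ⟨H₁, hH₁⟩ := eventually_atTop.1 (h0.eventually_ge_atTop (40 * C))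
  refine ⟨max H₁ 10000, fun H U V D Z hH hU hV hD hZ => ?_⟩
  have hHb : 10000 ≤ H := (le_max_right _ _).trans hH
  have h1 := hH₁ H ((le_max_left _ _).trans hH)
  have hH' : (10000 : ℝ) ≤ H := by exact_mod_cast hHb
  have hH0 : (0 : ℝ) < H := by linarith
  set s : ℝ := √(H : ℝ) with hs
  have hs2 : s * s = H := Real.mul_self_sqrt hH0.le
  have hs100 : 100 ≤ s := by
    rw [hs]
    apply Real.le_sqrt_of_sq_le
    linarith
  have hU1 : (U : ℝ) ≤ s / 4 := by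
    rw [hU]
    refine Real.nat_sqrt_le_real_sqrt.trans ?_
    rw [Real.sqrt_le_left (by positivity)]
    refine Nat.cast_div_le.trans ?_
    rw [div_pow, sq, hs2]
    norm_num
  have hU2 : s / 4 - 2 ≤ U := by
    have h2 : H / 16 < (U + 1) * (U + 1) := by
      rw [hU]
      exact Nat.lt_succ_sqrt _
    have h3 : H < 16 * ((U + 1) * (U + 1)) := by omega
    have h4 : (H : ℝ) < 16 * (((U : ℝ) + 1) * ((U : ℝ) + 1)) := by exact_mod_cast h3
    have hU0 : (0 : ℝ) ≤ U := Nat.cast_nonneg _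
    by_contra h5
    push Not at h5
    nlinarith
  have hV2 : (H : ℝ) / 8 - 1 ≤ V := by
    have h2 : H < 8 * (V + 1) := by omega
    have h3 : (H : ℝ) < 8 * ((V : ℝ) + 1) := by exact_mod_cast h2
    linarith
  have hUV : 1 / 100 * ((H : ℝ) * s) ≤ (U : ℝ) * V := by
    have h2 : s / 5 ≤ U := by linarith
    have h3 : (H : ℝ) / 9 ≤ V := by linarith
    calc 1 / 100 * ((H : ℝ) * s) ≤ s / 5 * (H / 9) := by nlinarith
      _ ≤ U * V := by gcongr
  -- the error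
  set q : ℝ := (H : ℝ) ^ (1 / 4 : ℝ) with hq
  have hq0 : 0 < q := by positivity
  have hqq : q * q = s := by
    rw [hq, ← Real.rpow_add hH0, hs, Real.sqrt_eq_rpow]
    norm_num
  have hD' : (D : ℝ) ≤ C * q := by
    refine hD.trans (le_of_eq ?_)
    rw [hq, ← Real.rpow_natCast, ← Real.rpow_mul hH0.le]
    norm_num
  have hUD : (U : ℝ) ^ 2 * D ≤ 1 / 200 * ((H : ℝ) * s) := by
    have hU0 : (0 : ℝ) ≤ U := Nat.cast_nonneg _
    have h2 : (U : ℝ) ^ 2 ≤ H / 16 := by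
      calc (U : ℝ) ^ 2 ≤ (s / 4) ^ 2 := pow_le_pow_left₀ hU0 hU1 _
        _ = s * s / 16 := by ring
        _ = H / 16 := by rw [hs2]
    have h3 : 40 * (C * q) ≤ s := by
      rw [← hqq]
      nlinarith
    calc (U : ℝ) ^ 2 * D ≤ H / 16 * (C * q) := by gcongr
      _ ≤ H / 16 * (s / 40) := by
        have : C * q ≤ s / 40 := by linarith
        gcongr
      _ ≤ 1 / 200 * ((H : ℝ) * s) := by nlinarith
  linarith

theorem val_card : ∃ c : ℝ, 0 < c ∧ ∃ H₀ : ℕ, ∀ (H : ℕ) (r : ℤ), H₀ ≤ H → 1 ≤ r → 8 * r ≤ H →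
    c * ((H : ℝ) * √(H : ℝ)) ≤ ((Val H r).ncard : ℝ) := by
  obtain ⟨C, hC, hdiv⟩ := Pool.Agent.LibHLP.exists_card_divisors_le (1 / 8) (by norm_num)
  obtain ⟨H₀, hH₀⟩ := L1_arith hC
  refine ⟨1 / 200, by norm_num, H₀, fun H r hH hr hr2 => ?_⟩
  set U := Nat.sqrt (H / 16) with hU
  set V := H / 8 with hV
  set D : ℕ := ⌊C * ((H : ℝ) ^ 2) ^ (1 / 8 : ℝ)⌋₊ with hD
  have hU16 : 16 * U ^ 2 ≤ H := by
    have h1 : U * U ≤ H / 16 := Nat.sqrt_le _
    have h2 : 16 * (U * U) ≤ H := by omega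
    nlinarith
  have hI : ∀ u u', 1 ≤ u → u < u' → u' ≤ U → (L1E V r u ∩ L1E V r u').card ≤ D := by
    intro u u' h1 h2 h3
    rw [hD]
    apply Nat.le_floor
    refine le_trans (Nat.cast_le.2 (L1E_inter hr h2)) ?_
    set N : ℤ := ((u' : ℤ) ^ 2 - (u : ℤ) ^ 2) * ((u' : ℤ) ^ 2 + (u : ℤ) ^ 2 + 3 * r) with hN
    have hu' : (u : ℤ) < u' := by exact_mod_cast h2
    have hu0 : (1 : ℤ) ≤ u := by exact_mod_cast h1
    have hu'U : (u' : ℤ) ≤ U := by exact_mod_cast h3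
    have hU16' : 16 * (U : ℤ) ^ 2 ≤ H := by exact_mod_cast hU16
    have hs : 16 * (u' : ℤ) ^ 2 ≤ H := by nlinarith
    have hN0 : 0 < N := by
      apply mul_pos
      · nlinarith
      · positivity
    have hNH : N ≤ (H : ℤ) ^ 2 := by
      have h4 : ((u' : ℤ) ^ 2 - (u : ℤ) ^ 2) ≤ H := by nlinarith
      have h5 : ((u' : ℤ) ^ 2 + (u : ℤ) ^ 2 + 3 * r) ≤ H := by nlinarith
      have h6 : 0 ≤ ((u' : ℤ) ^ 2 + (u : ℤ) ^ 2 + 3 * r) := by positivity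
      calc N ≤ H * ((u' : ℤ) ^ 2 + (u : ℤ) ^ 2 + 3 * r) := mul_le_mul_of_nonneg_right h4 h6
        _ ≤ H * H := mul_le_mul_of_nonneg_left h5 (by positivity)
        _ = (H : ℤ) ^ 2 := by ring
    have hNa : N.natAbs ≠ 0 := Int.natAbs_ne_zero.2 hN0.ne'
    refine (hdiv N.natAbs hNa).trans ?_
    apply mul_le_mul_of_nonneg_left _ (by linarith)
    apply Real.rpow_le_rpow (Nat.cast_nonneg _) _ (by norm_num)
    have h7 : ((N.natAbs : ℕ) : ℤ) ≤ (H : ℤ) ^ 2 := by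
      rw [Int.natCast_natAbs, abs_of_pos hN0]
      exact hNH
    exact_mod_cast h7
  have hmain := L1_union (L1E V r) (L1E_card V r) U hI
  have hsub : (((Finset.Icc 1 U).biUnion (L1E V r) : Finset ℤ) : Set ℤ) ⊆ Val H r := by
    intro e he
    rw [Finset.mem_coe, Finset.mem_biUnion] at he
    obtain ⟨u, hu, he⟩ := he
    obtain ⟨hu1, hu2⟩ := Finset.mem_Icc.1 hu
    unfold L1E at he
    obtain ⟨v, hv, rfl⟩ := Finset.mem_image.1 he
    obtain ⟨hv1, hv2⟩ := Finset.mem_Icc.1 hv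
    refine ⟨u, v, by exact_mod_cast hu1, ?_, by exact_mod_cast hv1, ?_, rfl⟩
    · have h1 : 16 * u ^ 2 ≤ H := by nlinarith
      exact_mod_cast h1
    · have h1 : 8 * v ≤ H := by omega
      exact_mod_cast h1
  have hcard : ((Finset.Icc 1 U).biUnion (L1E V r)).card ≤ (Val H r).ncard := by
    rw [← Set.ncard_coe_finset]
    exact Set.ncard_le_ncard hsub (val_finite H r)
  refine hH₀ H U V D _ hH hU hV (Nat.floor_le (by positivity)) ?_
  have h1 : U * V ≤ (Val H r).ncard + U ^ 2 * D := by omega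
  exact_mod_cast h1

end TP55
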