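import Pool.Agent.LibTP55.L1
import Pool.Agent.LibTP55.Defs

/-!
ROW [TP55 L2].  Lower bound.
PROOF.  For `1 ≤ r`, `8 r ≤ H`, `e ∈ Val H r`, `e ≠ 0`, `4 e ≠ 9 r^2` the pair `(A, B) = (e - 3 r^2, -r^3 - A r)` is in `FamX H H`: `|e| ≤ H^2/64 + H^2/256 +
3 H^2/128`, `|A| ≤ H^2`, `|B| ≤ H^3`, `r` is a root, `4A^3 + 27B^2 = (3r^2 + 4A)(3r^2 + A)^2 = (4e - 9r^2) e^2 ≠ 0`, point
`(x, y) = (r + u^2, u v)`: `y^2 = u^2 v^2 = u^2 (u^4 + 3 r u^2 + e)` and `x^3 + A x + B = (x - r)((x-r)^2 + 3r (x-r) + 3r^2 + A)`; `0 ≤ x ≤ H/8 + H/16`.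
At most two `e` are excluded for every `r`; a pair `(A,B)` comes from at most three `r` (roots of `t^3 + A t + B`), and `(A, r)` determines `e`.  So
`3 #FamX ≥ ∑_r (#Val H r - 2) ≥ (H/8 - 1)(c H √H - 2)` for `H ≥ H₀`.  For all `H ≥ 2`: `(0, 1) ∈ FamX H H` (`y^2 = x^3 + 1`, root `-1`, point `(0, 1)`), so `#FamX ≥ 1`; decrease `c`.
`FamX` is finite (subset of `N78.Fam H`, `N78.fam_finite`).
-/

namespace TP55

open N78

private theorem L2_mem {H : ℕ} {r e : ℤ} (hr : 1 ≤ r) (hrH : 8 * r ≤ H) (he : e ∈ Val H r)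
    (he0 : e ≠ 0) (he9 : 4 * e ≠ 9 * r ^ 2) {X : ℝ} (hX : (H : ℝ) ≤ X) :
    ((e - 3 * r ^ 2, -r ^ 3 - (e - 3 * r ^ 2) * r) : ℤ × ℤ) ∈ FamX H X := by
  obtain ⟨u, v, hu, huH, hv, hvH, he⟩ := he
  have hu2 : 0 < u ^ 2 := by positivity
  have h0 : (0 : ℤ) ≤ H := by positivity
  obtain ⟨h, hh⟩ : ∃ h : ℤ, h = (H : ℤ) := ⟨_, rfl⟩
  obtain ⟨U, hU⟩ : ∃ U : ℤ, U = u ^ 2 := ⟨_, rfl⟩
  have hu4 : u ^ 4 = U ^ 2 := by rw [hU]; ring
  rw [← hU, hu4] at he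
  rw [← hU] at huH hu2
  rw [← hh] at h0 hrH huH hvH
  have b1 : 64 * v ^ 2 ≤ h ^ 2 := by nlinarith
  have b2 : 256 * U ^ 2 ≤ h ^ 2 := by nlinarith
  have b3 : 128 * (r * U) ≤ h ^ 2 := by
    have := mul_le_mul hrH huH (by positivity) h0
    nlinarith
  have b4 : 64 * r ^ 2 ≤ h ^ 2 := by nlinarith
  have b5 : 0 ≤ r * U := by positivity
  have b6 : 0 ≤ v ^ 2 := by positivity
  have b7 : 0 ≤ U ^ 2 := by positivity
  have b8 : 0 ≤ r ^ 2 := by positivity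
  have b9 : 0 ≤ h ^ 2 := by positivity
  have hA : |e - 3 * r ^ 2| ≤ h ^ 2 := by
    rw [abs_le]
    constructor
    · nlinarith
    · nlinarith
  have hA' : |r ^ 2 + (e - 3 * r ^ 2)| ≤ h ^ 2 := by
    rw [abs_le]
    constructor
    · nlinarith
    · nlinarith
  have hB : |-r ^ 3 - (e - 3 * r ^ 2) * r| ≤ h ^ 3 := by
    have e1 : -r ^ 3 - (e - 3 * r ^ 2) * r = -(r * (r ^ 2 + (e - 3 * r ^ 2))) := by ring
    rw [e1, abs_neg, abs_mul, abs_of_pos (by linarith : 0 < r)]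
    calc r * |r ^ 2 + (e - 3 * r ^ 2)| ≤ h * h ^ 2 :=
          mul_le_mul (by linarith) hA' (abs_nonneg _) h0
      _ = h ^ 3 := by ring
  refine ⟨⟨by rw [← hh]; exact hA, by rw [← hh]; exact hB, ?_, r, by ring⟩, r + u ^ 2, u * v, ?_,
    ?_, ?_⟩
  · have e1 : 4 * (e - 3 * r ^ 2) ^ 3 + 27 * (-r ^ 3 - (e - 3 * r ^ 2) * r) ^ 2 =
        e ^ 2 * (4 * e - 9 * r ^ 2) := by ring
    show 4 * (e - 3 * r ^ 2) ^ 3 + 27 * (-r ^ 3 - (e - 3 * r ^ 2) * r) ^ 2 ≠ 0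
    rw [e1]
    exact mul_ne_zero (pow_ne_zero 2 he0) (sub_ne_zero.2 he9)
  · exact mul_ne_zero (by linarith) (by linarith)
  · show (u * v) ^ 2 = (r + u ^ 2) ^ 3 + (e - 3 * r ^ 2) * (r + u ^ 2) +
      (-r ^ 3 - (e - 3 * r ^ 2) * r)
    rw [he, hU]
    ring
  · refine le_trans ?_ hX
    have h1 : |r + u ^ 2| ≤ (H : ℤ) := by
      rw [← hU, ← hh, abs_of_nonneg (by linarith)]
      linarith
    have h2 : ((|r + u ^ 2| : ℤ) : ℝ) ≤ ((H : ℤ) : ℝ) := by exact_mod_cast h1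
    rw [Int.cast_abs] at h2
    simpa using h2

private theorem L2_roots (A B : ℤ) (S : Finset ℤ) (h : ∀ r ∈ S, r ^ 3 + A * r + B = 0) :
    S.card ≤ 3 := by
  classical
  open Polynomial in
  have hdeg : (X ^ 3 + C A * X + C B : ℤ[X]).natDegree = 3 := by compute_degree!
  open Polynomial in
  have hp : (X ^ 3 + C A * X + C B : ℤ[X]) ≠ 0 := by
    intro h0
    rw [h0, Polynomial.natDegree_zero] at hdeg
    omega
  open Polynomial in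
  have hsub : S ⊆ (X ^ 3 + C A * X + C B : ℤ[X]).roots.toFinset := by
    intro r hr
    rw [Multiset.mem_toFinset, Polynomial.mem_roots hp, Polynomial.IsRoot.def]
    simpa using h r hr
  calc S.card ≤ _ := Finset.card_le_card hsub
    _ ≤ _ := Multiset.toFinset_card_le _
    _ ≤ _ := Polynomial.card_roots' _
    _ = 3 := hdeg

private theorem L2_fin (H : ℕ) (X : ℝ) : (FamX H X).Finite :=
  (fam_finite H).subset fun _ hz => hz.1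

private theorem L2_one {H : ℕ} {X : ℝ} (hH : 2 ≤ H) (hX : (H : ℝ) ≤ X) :
    1 ≤ (FamX H X).ncard := by
  have h1 : ((0, 1) : ℤ × ℤ) ∈ FamX H X := by
    have hH1 : (1 : ℤ) ≤ (H : ℤ) := by exact_mod_cast (by omega : 1 ≤ H)
    refine ⟨⟨?_, ?_, ?_, -1, ?_⟩, 0, 1, one_ne_zero, by norm_num, ?_⟩
    · show |(0 : ℤ)| ≤ _
      rw [abs_zero]
      positivity
    · show |(1 : ℤ)| ≤ _
      rw [abs_one]
      exact one_le_pow₀ hH1
    · show 4 * (0 : ℤ) ^ 3 + 27 * (1 : ℤ) ^ 2 ≠ 0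
      norm_num
    · show (-1 : ℤ) ^ 3 + 0 * (-1) + 1 = 0
      norm_num
    · rw [Int.cast_zero, abs_zero]
      exact le_trans (Nat.cast_nonneg _) hX
  have h2 : (FamX H X).Nonempty := ⟨_, h1⟩
  exact (Set.ncard_pos (L2_fin H X)).2 h2

/-- the pairs with a given `r` -/
private theorem L2_val (H : ℕ) (r : ℤ) :
    (Val H r).ncard ≤ {e | e ∈ Val H r ∧ e ≠ 0 ∧ 4 * e ≠ 9 * r ^ 2}.ncard + 2 := by
  classical
  have hfin := val_finite H r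
  have h1 : Val H r ⊆ {e | e ∈ Val H r ∧ e ≠ 0 ∧ 4 * e ≠ 9 * r ^ 2} ∪
      {0, 9 * r ^ 2 / 4} := by
    intro e he
    by_cases h0 : e = 0
    · right
      exact Or.inl h0
    · by_cases h9 : 4 * e = 9 * r ^ 2
      · right
        right
        show e = 9 * r ^ 2 / 4
        omega
      · left
        exact ⟨he, h0, h9⟩
  have h2 : ({0, 9 * r ^ 2 / 4} : Set ℤ).ncard ≤ 2 := by
    refine (Set.ncard_insert_le _ _).trans ?_
    rw [Set.ncard_singleton]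
  have h3 : ({e | e ∈ Val H r ∧ e ≠ 0 ∧ 4 * e ≠ 9 * r ^ 2} ∪
      {0, 9 * r ^ 2 / 4} : Set ℤ).Finite :=
    (hfin.subset fun e he => he.1).union (Set.toFinite _)
  calc (Val H r).ncard ≤ _ := Set.ncard_le_ncard h1 h3
    _ ≤ _ := Set.ncard_union_le _ _
    _ ≤ _ := by omega

private theorem L2_sum (H : ℕ) {X : ℝ} (hX : (H : ℝ) ≤ X) (R : ℕ) (hR : 8 * R ≤ H) :
    ∑ r ∈ Finset.Icc (1 : ℤ) R, {e | e ∈ Val H r ∧ e ≠ 0 ∧ 4 * e ≠ 9 * r ^ 2}.ncard ≤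
      3 * (FamX H X).ncard := by
  classical
  have hfin : ∀ r : ℤ, {e | e ∈ Val H r ∧ e ≠ 0 ∧ 4 * e ≠ 9 * r ^ 2}.Finite := fun r =>
    (val_finite H r).subset fun e he => he.1
  have e1 : ∑ r ∈ Finset.Icc (1 : ℤ) R, {e | e ∈ Val H r ∧ e ≠ 0 ∧ 4 * e ≠ 9 * r ^ 2}.ncard =
      ((Finset.Icc (1 : ℤ) R).sigma fun r => (hfin r).toFinset).card := by
    rw [Finset.card_sigma]
    refine Finset.sum_congr rfl fun r _ => ?_
    rw [Set.ncard_eq_toFinset_card _ (hfin r)]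
  rw [e1, Set.ncard_eq_toFinset_card _ (L2_fin H X)]
  refine Finset.card_le_mul_card_image_of_maps_to
    (f := fun a : (_ : ℤ) × ℤ => ((a.2 - 3 * a.1 ^ 2, -a.1 ^ 3 - (a.2 - 3 * a.1 ^ 2) * a.1) :
      ℤ × ℤ)) ?_ 3 ?_
  · rintro ⟨r, e⟩ hre
    rw [Finset.mem_sigma, Set.Finite.mem_toFinset, Finset.mem_Icc] at hre
    obtain ⟨⟨h1, h2⟩, h3, h4, h5⟩ := hre
    rw [Set.Finite.mem_toFinset]
    refine L2_mem h1 ?_ h3 h4 h5 hX
    have h6 : ((8 * R : ℕ) : ℤ) ≤ (H : ℤ) := by exact_mod_cast hR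
    push_cast at h6
    linarith
  · rintro ⟨A, B⟩ -
    have h1 : (Finset.image (fun a : (_ : ℤ) × ℤ => a.1)
        (((Finset.Icc (1 : ℤ) R).sigma fun r => (hfin r).toFinset).filter
          (fun a => ((a.2 - 3 * a.1 ^ 2, -a.1 ^ 3 - (a.2 - 3 * a.1 ^ 2) * a.1) : ℤ × ℤ) =
            (A, B)))).card ≤ 3 := by
      refine L2_roots A B _ ?_
      intro r hr
      rw [Finset.mem_image] at hr
      obtain ⟨⟨r', e⟩, h2, h3⟩ := hr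
      rw [Finset.mem_filter, Prod.mk.injEq] at h2
      obtain ⟨-, h4, h5⟩ := h2
      simp only at h3 h4 h5
      subst h3
      rw [← h5, ← h4]
      ring
    refine le_trans (le_of_eq ?_) h1
    rw [Finset.card_image_of_injOn]
    rintro ⟨r, e⟩ h2 ⟨r', e'⟩ h3 h4
    rw [Finset.mem_coe, Finset.mem_filter, Prod.mk.injEq] at h2 h3
    simp only at h4 h2 h3
    subst h4
    have h5 : e = e' := by
      have h6 := h2.2.1
      have h7 := h3.2.1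
      linarith
    subst h5
    rfl

theorem famX_ge : ∃ c : ℝ, 0 < c ∧ ∀ (H : ℕ) (X : ℝ), 2 ≤ H → (H : ℝ) ≤ X →
    c * ((H : ℝ) ^ 2 * √(H : ℝ)) ≤ ((FamX H X).ncard : ℝ) := by
  obtain ⟨c, hc, H₀, hval⟩ := val_card
  obtain ⟨H₁, hH₁⟩ : ∃ H₁ : ℕ, max (max (H₀ : ℝ) 16) (4 / c) ≤ (H₁ : ℝ) := exists_nat_ge _
  have hH₁a : (H₀ : ℝ) ≤ H₁ := (le_max_left _ _).trans ((le_max_left _ _).trans hH₁)
  have hH₁b : (16 : ℝ) ≤ H₁ := (le_max_right _ _).trans ((le_max_left _ _).trans hH₁)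
  have hH₁c : 4 / c ≤ (H₁ : ℝ) := (le_max_right _ _).trans hH₁
  have hpos : 0 < (H₁ : ℝ) ^ 2 * √(H₁ : ℝ) := by
    have : (0 : ℝ) < H₁ := by linarith
    positivity
  refine ⟨min (c / 96) (1 / ((H₁ : ℝ) ^ 2 * √(H₁ : ℝ))), lt_min (by positivity)
    (by positivity), fun H X hH hX => ?_⟩
  have hH0 : (0 : ℝ) ≤ (H : ℝ) := Nat.cast_nonneg _
  have hHs : 0 ≤ (H : ℝ) ^ 2 * √(H : ℝ) := by positivity
  rcases le_or_gt H₁ H with hle | hlt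
  · -- large `H`
    have hle' : (H₁ : ℝ) ≤ (H : ℝ) := by exact_mod_cast hle
    have hH16 : (16 : ℝ) ≤ (H : ℝ) := hH₁b.trans hle'
    have hH₀ : H₀ ≤ H := by exact_mod_cast hH₁a.trans hle'
    have hR : 8 * (H / 8) ≤ H := Nat.mul_div_le H 8
    have h1 := L2_sum H hX (H / 8) hR
    have hR2 : (H : ℝ) / 16 ≤ ((H / 8 : ℕ) : ℝ) := by
      have h16 : 16 ≤ H := by exact_mod_cast hH16
      have h2 : H ≤ 16 * (H / 8) := by omega
      have h3 : (H : ℝ) ≤ 16 * ((H / 8 : ℕ) : ℝ) := by exact_mod_cast h2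
      linarith
    have hsq : 1 ≤ √(H : ℝ) := Real.one_le_sqrt.2 (by linarith)
    have h4 : 4 ≤ c * ((H : ℝ) * √(H : ℝ)) := by
      have h5 : 4 ≤ c * (H : ℝ) := by
        have h6 := hH₁c.trans hle'
        rw [div_le_iff₀ hc] at h6
        linarith
      have h7 : c * (H : ℝ) * 1 ≤ c * (H : ℝ) * √(H : ℝ) :=
        mul_le_mul_of_nonneg_left hsq (by positivity)
      linarith
    have h5 : ∀ r ∈ Finset.Icc (1 : ℤ) ((H / 8 : ℕ) : ℤ), c / 2 * ((H : ℝ) * √(H : ℝ)) ≤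
        (({e | e ∈ Val H r ∧ e ≠ 0 ∧ 4 * e ≠ 9 * r ^ 2}.ncard : ℕ) : ℝ) := by
      intro r hr
      rw [Finset.mem_Icc] at hr
      have h6 : 8 * r ≤ (H : ℤ) := by
        have h7 : ((8 * (H / 8) : ℕ) : ℤ) ≤ (H : ℤ) := by exact_mod_cast hR
        push_cast at h7
        have h8 := hr.2
        push_cast at h8
        linarith
      have h7 := hval H r hH₀ hr.1 h6
      have h8 : (((Val H r).ncard : ℕ) : ℝ) ≤
          (({e | e ∈ Val H r ∧ e ≠ 0 ∧ 4 * e ≠ 9 * r ^ 2}.ncard : ℕ) : ℝ) + 2 := by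
        exact_mod_cast L2_val H r
      linarith
    have h6 : ((H / 8 : ℕ) : ℝ) * (c / 2 * ((H : ℝ) * √(H : ℝ))) ≤
        ∑ r ∈ Finset.Icc (1 : ℤ) ((H / 8 : ℕ) : ℤ),
          (({e | e ∈ Val H r ∧ e ≠ 0 ∧ 4 * e ≠ 9 * r ^ 2}.ncard : ℕ) : ℝ) := by
      have h7 := Finset.card_nsmul_le_sum _ _ _ h5
      rw [Int.card_Icc, nsmul_eq_mul] at h7
      have h8 : (((H / 8 : ℕ) : ℤ) + 1 - 1).toNat = H / 8 := by
        rw [add_sub_cancel_right]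
        exact Int.toNat_natCast _
      rw [h8] at h7
      exact h7
    have h7 : ∑ r ∈ Finset.Icc (1 : ℤ) ((H / 8 : ℕ) : ℤ),
          (({e | e ∈ Val H r ∧ e ≠ 0 ∧ 4 * e ≠ 9 * r ^ 2}.ncard : ℕ) : ℝ) ≤
        3 * (((FamX H X).ncard : ℕ) : ℝ) := by
      exact_mod_cast h1
    have h8 : (H : ℝ) / 16 * (c / 2 * ((H : ℝ) * √(H : ℝ))) ≤
        ((H / 8 : ℕ) : ℝ) * (c / 2 * ((H : ℝ) * √(H : ℝ))) :=
      mul_le_mul_of_nonneg_right hR2 (by positivity)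
    have h9 : min (c / 96) (1 / ((H₁ : ℝ) ^ 2 * √(H₁ : ℝ))) * ((H : ℝ) ^ 2 * √(H : ℝ)) ≤
        c / 96 * ((H : ℝ) ^ 2 * √(H : ℝ)) :=
      mul_le_mul_of_nonneg_right (min_le_left _ _) hHs
    nlinarith
  · -- small `H`
    have hlt' : (H : ℝ) ≤ (H₁ : ℝ) := by exact_mod_cast hlt.le
    have h1 : (1 : ℝ) ≤ ((FamX H X).ncard : ℝ) := by exact_mod_cast L2_one hH hX
    refine le_trans ?_ h1
    have h2 : (H : ℝ) ^ 2 * √(H : ℝ) ≤ (H₁ : ℝ) ^ 2 * √(H₁ : ℝ) :=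
      mul_le_mul (pow_le_pow_left₀ hH0 hlt' 2) (Real.sqrt_le_sqrt hlt') (Real.sqrt_nonneg _)
        (by positivity)
    calc min (c / 96) (1 / ((H₁ : ℝ) ^ 2 * √(H₁ : ℝ))) * ((H : ℝ) ^ 2 * √(H : ℝ))
        ≤ 1 / ((H₁ : ℝ) ^ 2 * √(H₁ : ℝ)) * ((H : ℝ) ^ 2 * √(H : ℝ)) :=
          mul_le_mul_of_nonneg_right (min_le_right _ _) hHs
      _ ≤ 1 / ((H₁ : ℝ) ^ 2 * √(H₁ : ℝ)) * ((H₁ : ℝ) ^ 2 * √(H₁ : ℝ)) :=
          mul_le_mul_of_nonneg_left h2 (by positivity)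
      _ = 1 := by field_simp

end TP55
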