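import Pool.Agent.LibN78.C7
import Pool.Agent.LibRD69.M3

/-!
ROW [TP55 P1].  Squares in an arithmetic progression, arithmetic large sieve.
PROOF.  `RD69.als` with `M = P`, `Ω p = (range p).filter (fun h => ¬ IsSquare ((α + h * β : ℤ) : ZMod p))`.
`p ∤ β`, so `h ↦ α + h β` is a bijection of `ZMod p` and `#(Ω p) = p - (p+1)/2 = (p-1)/2`
(`N78.card_squares`: `(p+1)/2` squares in `ZMod p`).  `hw Ω p = #(Ω p)/(p - #(Ω p)) = ((p-1)/2)/((p+1)/2) ≥ 1/2`
for `p ≥ 3` (`p.primeFactors = {p}`).  `k ∈ s`: `α + k β = r * r`, so its class mod `p` is a square, so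
`k ≢ h` for `h ∈ Ω p`.  `als` gives `(#P / 2) * #s ≤ 9 N`.
-/

open Finset

namespace TP55

private noncomputable def p1Om (α β : ℤ) (p : ℕ) : Finset ℕ := by
  classical
  exact (range p).filter (fun h => ¬ IsSquare (((α + h * β : ℤ)) : ZMod p))

private lemma p1_mem (α β : ℤ) (p h : ℕ) :
    h ∈ p1Om α β p ↔ h < p ∧ ¬ IsSquare (((α + h * β : ℤ)) : ZMod p) := by
  classical
  unfold p1Om
  rw [mem_filter, mem_range]

private lemma p1_card (α β : ℤ) (p : ℕ) (hp : p.Prime) (hp2 : p ≠ 2) (hβ : ¬ (p : ℤ) ∣ β) :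
    (p1Om α β p).card + (p + 1) / 2 = p := by
  classical
  have hF : Fact p.Prime := ⟨hp⟩
  have hne : NeZero p := ⟨hp.ne_zero⟩
  have hb : ((β : ℤ) : ZMod p) ≠ 0 := by
    intro h
    exact hβ ((ZMod.intCast_zmod_eq_zero_iff_dvd β p).1 h)
  have h1 : (p1Om α β p).card + ((range p).filter
      (fun h : ℕ => IsSquare (((α + h * β : ℤ)) : ZMod p))).card = p := by
    have h := Finset.card_filter_add_card_filter_not
      (s := range p) (fun h : ℕ => IsSquare (((α + h * β : ℤ)) : ZMod p))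
    rw [card_range] at h
    have hOm : p1Om α β p = (range p).filter
        (fun h : ℕ => ¬ IsSquare (((α + h * β : ℤ)) : ZMod p)) := by
      ext k
      rw [p1_mem, mem_filter, mem_range]
    rw [hOm]
    omega
  have h2 : ((range p).filter
      (fun h : ℕ => IsSquare (((α + h * β : ℤ)) : ZMod p))).card = (p + 1) / 2 := by
    rw [← N78.card_squares p hp hp2, ← Set.ncard_coe_finset]
    refine Set.ncard_congr (fun h _ => (((α + h * β : ℤ)) : ZMod p)) ?_ ?_ ?_
    · intro h hh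
      rw [mem_coe, mem_filter] at hh
      exact hh.2
    · intro h h' hh hh' heq
      rw [mem_coe, mem_filter, mem_range] at hh hh'
      push_cast at heq
      have h3 : ((h : ZMod p)) = (h' : ZMod p) := by
        have h4 : ((h : ZMod p) - h') * (β : ZMod p) = 0 := by linear_combination heq
        rcases mul_eq_zero.1 h4 with h5 | h5
        · exact sub_eq_zero.1 h5
        · exact absurd h5 hb
      rw [ZMod.natCast_eq_natCast_iff] at h3
      exact Nat.ModEq.eq_of_lt_of_lt h3 hh.1 hh'.1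
    · intro c hc
      refine ⟨((c - (α : ZMod p)) * (β : ZMod p)⁻¹).val, ?_, ?_⟩
      · rw [mem_coe, mem_filter, mem_range]
        refine ⟨ZMod.val_lt _, ?_⟩
        push_cast
        rw [ZMod.natCast_zmod_val, mul_assoc, inv_mul_cancel₀ hb, mul_one, add_sub_cancel]
        exact hc
      · push_cast
        rw [ZMod.natCast_zmod_val, mul_assoc, inv_mul_cancel₀ hb, mul_one, add_sub_cancel]
  rw [h2] at h1
  exact h1

private lemma p1_hw (α β : ℤ) (p : ℕ) (hp : p.Prime) (hp2 : p ≠ 2) (hβ : ¬ (p : ℤ) ∣ β) :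
    (1 / 2 : ℝ) ≤ RD69.hw (p1Om α β) p := by
  have hc := p1_card α β p hp hp2 hβ
  have h3 : 3 ≤ p := by
    have := hp.two_le
    omega
  have hodd : p % 2 = 1 := by
    rcases hp.eq_two_or_odd with h | h
    · exact absurd h hp2
    · exact h
  have h2c : 2 * (p1Om α β p).card + 1 = p := by omega
  unfold RD69.hw
  rw [hp.primeFactors, prod_singleton]
  have h2c' : (2 : ℝ) * ((p1Om α β p).card : ℝ) + 1 = p := by exact_mod_cast h2c
  have h3' : (3 : ℝ) ≤ p := by exact_mod_cast h3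
  rw [div_le_div_iff₀ (by norm_num) (by linarith)]
  linarith

theorem sq_ap (P : Finset ℕ) (Q N : ℕ) (hN : 0 < N) (hQ : Q ^ 2 ≤ N)
    (hP : ∀ p ∈ P, p.Prime ∧ p ≠ 2 ∧ p ≤ Q) (α β : ℤ) (hβ : ∀ p ∈ P, ¬ (p : ℤ) ∣ β)
    (A : ℤ) (s : Finset ℤ) (hs : s ⊆ Ico A (A + N)) (hsq : ∀ k ∈ s, IsSquare (α + k * β)) :
    (P.card : ℝ) * s.card ≤ 18 * N := by
  classical
  have h := RD69.als (p1Om α β) P Q N hN hQ (by
    intro m hm
    obtain ⟨h1, h2, h3⟩ := hP m hm
    refine ⟨h1.squarefree, h3, ?_⟩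
    intro p hp
    rw [h1.primeFactors, mem_singleton] at hp
    subst hp
    refine ⟨fun h hh => ((p1_mem α β p h).1 hh).1, ?_⟩
    have hc := p1_card α β p h1 h2 (hβ p hm)
    have := h1.two_le
    omega) A s hs (by
    intro m hm p hp n hn h hh hmod
    obtain ⟨h1, h2, h3⟩ := hP m hm
    rw [h1.primeFactors, mem_singleton] at hp
    subst hp
    have h4 := ((p1_mem α β p h).1 hh).2
    apply h4
    obtain ⟨r, hr⟩ := hsq n hn
    have h5 : ((n : ℤ) : ZMod p) = ((h : ℤ) : ZMod p) := (ZMod.intCast_eq_intCast_iff _ _ _).2 hmod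
    refine ⟨(r : ZMod p), ?_⟩
    have h6 : ((α + n * β : ℤ) : ZMod p) = ((r * r : ℤ) : ZMod p) := by rw [hr]
    push_cast at h6 h5 ⊢
    rw [← h5, h6])
  have h7 : (P.card : ℝ) * (1 / 2) ≤ ∑ m ∈ P, RD69.hw (p1Om α β) m := by
    rw [← nsmul_eq_mul]
    refine Finset.card_nsmul_le_sum _ _ _ ?_
    intro m hm
    obtain ⟨h1, h2, h3⟩ := hP m hm
    exact p1_hw α β m h1 h2 (hβ m hm)
  have h8 : (P.card : ℝ) * (1 / 2) * (s.card : ℝ) ≤ (∑ m ∈ P, RD69.hw (p1Om α β) m) * s.card := by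
    gcongr
  nlinarith

end TP55
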