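import Pool.Agent.LibTP55.P9
import Pool.Agent.LibN78.A4
import Pool.Agent.LibN78.A5
import Pool.Agent.LibN78.A6

/-!
ROW [TP55 P10].  All classes.
PROOF.  `BadX H X ⊆ Box H`, finite (`N78.bad_finite`: `BadX H X ⊆ Bad H`).  If `log X > √H`: `#Box H ≤ (2H+1)(2H^2+1) ≤ 9 H^3 ≤ 9 H^2 √H log X`, and
`(log H)^2 ≥ (log 2)^2`.  Otherwise `descent` (its proof gives `x = d u^2`; the STATEMENT of `N78.descent` does not: repeat its proof, or use the
version `descent_size` below) gives `d, e, u, w` with `d u^2 = x`.  `d < 0`: `neg_count`; `d = 1`: `one_count`; `d ≥ 2`: `total_ge_two`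
(`d u^2 = x ≤ X`).  `log H ≤ log X`, `log H ≥ log 2`.
-/

namespace TP55

open N78

private theorem P10_box_card {H : ℕ} (hH : 2 ≤ H) {S : Finset (ℤ × ℤ)} (hS : ∀ z ∈ S, z ∈ Box H) :
    (S.card : ℝ) ≤ 9 * (H : ℝ) ^ 3 := by
  have h1 : S ⊆ Finset.Icc (-(H : ℤ)) (H : ℤ) ×ˢ Finset.Icc (-(H : ℤ) ^ 2) ((H : ℤ) ^ 2) := by
    intro z hz
    obtain ⟨h1, h2, -, -⟩ := hS z hz
    rw [Finset.mem_product, Finset.mem_Icc, Finset.mem_Icc]
    exact ⟨abs_le.1 h1, abs_le.1 h2⟩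
  have h2 : S.card ≤ (2 * H + 1) * (2 * H ^ 2 + 1) := by
    refine (Finset.card_le_card h1).trans ?_
    rw [Finset.card_product, Int.card_Icc, Int.card_Icc]
    apply le_of_eq
    congr 1
    · omega
    · have : ((H : ℤ) ^ 2 + 1 - -(H : ℤ) ^ 2) = ((2 * H ^ 2 + 1 : ℕ) : ℤ) := by
        push_cast
        ring
      rw [this, Int.toNat_natCast]
  have h3 : (S.card : ℝ) ≤ (2 * (H : ℝ) + 1) * (2 * (H : ℝ) ^ 2 + 1) := by exact_mod_cast h2
  have h4 : (2 : ℝ) ≤ H := by exact_mod_cast hH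
  have h5 : (2 * (H : ℝ) + 1) ≤ 3 * H := by linarith
  have h6 : (2 * (H : ℝ) ^ 2 + 1) ≤ 3 * (H : ℝ) ^ 2 := by nlinarith
  calc (S.card : ℝ) ≤ (2 * (H : ℝ) + 1) * (2 * (H : ℝ) ^ 2 + 1) := h3
    _ ≤ (3 * H) * (3 * (H : ℝ) ^ 2) := by gcongr
    _ = 9 * (H : ℝ) ^ 3 := by ring

/-- `N78.descent` with `x = d u^2`. Copy the proof of `N78.descent` (LibN78/A4.lean). -/
theorem descent_size (a b x y : ℤ) (hy : y ≠ 0) (h : y ^ 2 = x * (x ^ 2 + a * x + b)) :
    ∃ d e u w : ℤ, Squarefree d ∧ 0 < u ∧ w ≠ 0 ∧ b = d * e ∧ x = d * u ^ 2 ∧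
      w ^ 2 = d * u ^ 4 + a * u ^ 2 + e := by
  have hX : x ≠ 0 := by
    rintro rfl
    simp at h
    exact hy h
  obtain ⟨d₀, u₀, hdu, hsq⟩ := Nat.sq_mul_squarefree x.natAbs
  have hu₀ : u₀ ≠ 0 := by
    rintro rfl
    have : x.natAbs = 0 := by simpa using hdu.symm
    exact hX (Int.natAbs_eq_zero.1 this)
  have hd₀ : d₀ ≠ 0 := by
    rintro rfl
    have : x.natAbs = 0 := by simpa using hdu.symm
    exact hX (Int.natAbs_eq_zero.1 this)
  -- the signed squarefree part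
  obtain ⟨d, hdn, hXd⟩ : ∃ d : ℤ, d.natAbs = d₀ ∧ x = d * (u₀ : ℤ) ^ 2 := by
    rcases Int.natAbs_eq x with hs | hs
    · refine ⟨d₀, by simp, ?_⟩
      rw [hs, ← hdu]
      push_cast
      ring
    · refine ⟨-d₀, by simp, ?_⟩
      rw [hs, ← hdu]
      push_cast
      ring
  have hdsq : Squarefree d := by
    rw [← Int.squarefree_natAbs, hdn]
    exact hsq
  have hd : d ≠ 0 := hdsq.ne_zero
  set u : ℤ := (u₀ : ℤ) with hu
  have hupos : 0 < u := by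
    have : 0 < u₀ := Nat.pos_of_ne_zero hu₀
    rw [hu]
    exact_mod_cast this
  have h1 : u ^ 2 ∣ y ^ 2 := by
    rw [h]
    nth_rewrite 1 [hXd]
    exact ⟨d * (x ^ 2 + a * x + b), by ring⟩
  have h2 : u ∣ y := (Int.pow_dvd_pow_iff (by norm_num)).1 h1
  obtain ⟨z, rfl⟩ := h2
  have h3 : z ^ 2 = d * (x ^ 2 + a * x + b) := by
    have h4 : u ^ 2 * z ^ 2 = u ^ 2 * (d * (x ^ 2 + a * x + b)) := by
      have : (u * z) ^ 2 = (d * u ^ 2) * (x ^ 2 + a * x + b) := by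
        rw [h]
        nth_rewrite 1 [hXd]
        ring
      linear_combination this
    exact mul_left_cancel₀ (by positivity) h4
  have h5 : d ∣ z := by
    have h6 : d ∣ z ^ 2 := ⟨_, h3⟩
    exact (hdsq.dvd_pow_iff_dvd (by norm_num)).1 h6
  obtain ⟨w, rfl⟩ := h5
  have h7 : d * w ^ 2 = x ^ 2 + a * x + b := by
    have h8 : d * (d * w ^ 2) = d * (x ^ 2 + a * x + b) := by
      rw [← h3]
      ring
    exact mul_left_cancel₀ hd h8
  refine ⟨d, w ^ 2 - d * u ^ 4 - a * u ^ 2, u, w, hdsq, hupos, ?_, ?_, hXd, ?_⟩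
  · rintro rfl
    simp at hy
  · rw [hXd] at h7
    linear_combination -h7
  · ring

theorem badX_le : ∃ C : ℝ, 0 < C ∧ ∀ (H : ℕ) (X : ℝ), 2 ≤ H → (H : ℝ) ≤ X →
    ((BadX H X).ncard : ℝ) ≤ C * ((H : ℝ) ^ 2 * √(H : ℝ)) * Real.log X * Real.log H ^ 2 := by
  classical
  obtain ⟨C₁, hC₁, hneg⟩ := neg_count
  obtain ⟨C₂, hC₂, hone⟩ := one_count
  obtain ⟨C₃, hC₃, htwo⟩ := total_ge_two
  refine ⟨20 + 3 * C₁ + 3 * C₂ + C₃, by positivity, fun H X hH hX => ?_⟩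
  have hH' : (2 : ℝ) ≤ H := by exact_mod_cast hH
  have hH0 : (0 : ℝ) < H := by linarith
  have hl2 := Real.log_two_gt_d9
  have hlH : Real.log 2 ≤ Real.log H := Real.log_le_log (by norm_num) hH'
  have hlX : Real.log H ≤ Real.log X := Real.log_le_log hH0 hX
  have hfin : (BadX H X).Finite := by
    refine (bad_finite H).subset ?_
    rintro z ⟨h1, x, y, h2, h3, -⟩
    exact ⟨h1, x, y, h2, h3⟩
  set S : Finset (ℤ × ℤ) := hfin.toFinset with hS
  have hmem : ∀ z ∈ S, z ∈ BadX H X := fun z hz => hfin.mem_toFinset.1 hz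
  rw [Set.ncard_eq_toFinset_card _ hfin, ← hS]
  set L : ℝ := Real.log H with hL
  set Y : ℝ := Real.log X with hY
  set W : ℝ := (H : ℝ) ^ 2 * √(H : ℝ) with hW
  have hW0 : 0 < W := by positivity
  have hL0 : 0.69 ≤ L := by linarith
  have hY0 : 0.69 ≤ Y := by linarith
  have hLL : 0.47 ≤ L ^ 2 := by nlinarith
  have hWYL : 0 ≤ W * Y * L ^ 2 := by positivity
  rcases lt_or_ge (√(H : ℝ)) Y with hc | hc
  · have h1 := P10_box_card hH (fun z hz => (hmem z hz).1)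
    have h2 : 9 * (H : ℝ) ^ 3 = 9 * W * √(H : ℝ) := by
      rw [hW]
      have := Real.mul_self_sqrt hH0.le
      calc 9 * (H : ℝ) ^ 3 = 9 * (H : ℝ) ^ 2 * H := by ring
        _ = 9 * (H : ℝ) ^ 2 * (√(H : ℝ) * √(H : ℝ)) := by rw [this]
        _ = _ := by ring
    have h3 : 9 * W * √(H : ℝ) ≤ 9 * W * Y := by gcongr
    have h4 : 9 * W * Y ≤ 20 * W * Y * L ^ 2 := by
      have h5 : 0 ≤ W * Y := by positivity
      nlinarith
    calc (S.card : ℝ) ≤ 9 * (H : ℝ) ^ 3 := h1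
      _ ≤ 20 * W * Y * L ^ 2 := by rw [h2]; exact h3.trans h4
      _ ≤ (20 + 3 * C₁ + 3 * C₂ + C₃) * W * Y * L ^ 2 := by
        have h6 : (20 : ℝ) ≤ 20 + 3 * C₁ + 3 * C₂ + C₃ := by linarith
        gcongr
  · set S₁ := S.filter (fun z => ∃ d e u w : ℤ, d < 0 ∧ 0 < u ∧ z.2 = d * e ∧
      w ^ 2 = d * u ^ 4 + z.1 * u ^ 2 + e) with hS₁
    set S₂ := S.filter (fun z => ∃ u w : ℤ, 0 < u ∧ w ^ 2 = u ^ 4 + z.1 * u ^ 2 + z.2) with hS₂
    set S₃ := S.filter (fun z => ∃ d e u w : ℤ, 2 ≤ d ∧ Squarefree d ∧ 0 < u ∧ z.2 = d * e ∧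
      w ^ 2 = d * u ^ 4 + z.1 * u ^ 2 + e ∧ (d : ℝ) * (u : ℝ) ^ 2 ≤ X) with hS₃
    have hcov : S ⊆ S₁ ∪ S₂ ∪ S₃ := by
      intro z hz
      obtain ⟨hbox, x, y, hy, hxy, hxX⟩ := hmem z hz
      obtain ⟨d, e, u, w, hd, hu, -, h1, h2, h3⟩ := descent_size z.1 z.2 x y hy hxy
      rw [Finset.mem_union, Finset.mem_union]
      rcases lt_trichotomy d 0 with hd0 | hd0 | hd0
      · left; left
        exact Finset.mem_filter.2 ⟨hz, d, e, u, w, hd0, hu, h1, h3⟩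
      · exact absurd hd0 hd.ne_zero
      · rcases lt_or_ge 1 d with hd1 | hd1
        · right
          refine Finset.mem_filter.2 ⟨hz, d, e, u, w, by omega, hd, hu, h1, h3, ?_⟩
          have h4 : (x : ℝ) = (d : ℝ) * (u : ℝ) ^ 2 := by
            rw [h2]
            push_cast
            ring
          rw [← h4]
          exact (le_abs_self _).trans hxX
        · left; right
          have hd' : d = 1 := by omega
          subst hd'
          refine Finset.mem_filter.2 ⟨hz, u, w, hu, ?_⟩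
          rw [h3, h1]
          ring
    have hcard : (S.card : ℝ) ≤ S₁.card + S₂.card + S₃.card := by
      have h1 : S.card ≤ S₁.card + S₂.card + S₃.card := by
        refine (Finset.card_le_card hcov).trans ?_
        refine (Finset.card_union_le _ _).trans ?_
        exact Nat.add_le_add_right (Finset.card_union_le _ _) _
      exact_mod_cast h1
    have b1 := hneg H hH S₁ (by
      intro z hz
      obtain ⟨h1, h2⟩ := Finset.mem_filter.1 hz
      exact ⟨(hmem z h1).1, h2⟩)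
    have b2 := hone H hH S₂ (by
      intro z hz
      obtain ⟨h1, h2⟩ := Finset.mem_filter.1 hz
      exact ⟨(hmem z h1).1, h2⟩)
    have b3 := htwo H X hH hX hc S₃ (by
      intro z hz
      obtain ⟨h1, h2⟩ := Finset.mem_filter.1 hz
      exact ⟨(hmem z h1).1, h2⟩)
    rw [← hW, ← hY, ← hL] at b3
    have hkey : L ≤ 3 * (Y * L ^ 2) := by
      have h1 : 1 ≤ 3 * L ^ 2 := by linarith
      have h2 : Y ≤ Y * (3 * L ^ 2) := le_mul_of_one_le_right (by linarith) h1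
      linarith
    have b1' : (S₁.card : ℝ) ≤ 3 * C₁ * (W * Y * L ^ 2) := by
      calc (S₁.card : ℝ) ≤ C₁ * (H : ℝ) ^ 2 * √(H : ℝ) * L := b1
        _ = C₁ * W * L := by rw [hW]; ring
        _ ≤ C₁ * W * (3 * (Y * L ^ 2)) := by gcongr
        _ = _ := by ring
    have b2' : (S₂.card : ℝ) ≤ 3 * C₂ * (W * Y * L ^ 2) := by
      calc (S₂.card : ℝ) ≤ C₂ * (H : ℝ) ^ 2 * √(H : ℝ) * L := b2
        _ = C₂ * W * L := by rw [hW]; ring
        _ ≤ C₂ * W * (3 * (Y * L ^ 2)) := by gcongr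
        _ = _ := by ring
    have b3' : (S₃.card : ℝ) ≤ C₃ * (W * Y * L ^ 2) := by
      refine b3.trans (le_of_eq ?_)
      ring
    calc (S.card : ℝ) ≤ S₁.card + S₂.card + S₃.card := hcard
      _ ≤ 3 * C₁ * (W * Y * L ^ 2) + 3 * C₂ * (W * Y * L ^ 2) + C₃ * (W * Y * L ^ 2) := by
        linarith
      _ ≤ (20 + 3 * C₁ + 3 * C₂ + C₃) * W * Y * L ^ 2 := by nlinarith

end TP55
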