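import Pool.Agent.LibTP55.P10
import Pool.Agent.LibN78.A1

/-!
ROW [TP55 P11].  From `Fam H` to `Box (6H)`.
PROOF.  As `N78.fam_bad_le` (LibN78/A2.lean): `z = (A,B) ↦ (3e, 3e^2 + A)`, `e` a root, `|e| ≤ 2H` (`root_bound`), injective, into
`BadX (6H) (X + 2H)` (`x = x' + e`, `|x'| ≤ |x| + 2H`), and `X + 2H ≤ 3X`; use `badX_le` with `6 H` and `3 X + ...`: take `X' = 6 X ≥ 6 H`,
`BadX (6H) (3X) ⊆ BadX (6H) (6X)`.  `log (6X) ≤ 4 log X`, `log (6H) ≤ 4 log H` (`X ≥ H ≥ 2`), `√(6H) ≤ 3 √H`.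
-/

namespace TP55

open N78

theorem famX_finite (H : ℕ) (X : ℝ) : (FamX H X).Finite :=
  (fam_finite H).subset fun _ h => h.1

open Classical in
/-- the map to the pairs `(a, b)` -/
private noncomputable def P11_f (z : ℤ × ℤ) : ℤ × ℤ :=
  if h : ∃ e : ℤ, e ^ 3 + z.1 * e + z.2 = 0 then
    (3 * h.choose, 3 * h.choose ^ 2 + z.1) else (0, 0)

private theorem P11_f_spec {z : ℤ × ℤ} (h : ∃ e : ℤ, e ^ 3 + z.1 * e + z.2 = 0) :
    ∃ e : ℤ, e ^ 3 + z.1 * e + z.2 = 0 ∧ P11_f z = (3 * e, 3 * e ^ 2 + z.1) :=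
  ⟨h.choose, h.choose_spec, by rw [P11_f, dif_pos h]⟩

private theorem P11_le (H : ℕ) (X : ℝ) (hHX : (H : ℝ) ≤ X) :
    (FamX H X).ncard ≤ (BadX (6 * H) (6 * X)).ncard := by
  have hfin : (BadX (6 * H) (6 * X)).Finite :=
    (bad_finite (6 * H)).subset fun z ⟨hz, x, y, hy, hxy, _⟩ => ⟨hz, x, y, hy, hxy⟩
  refine Set.ncard_le_ncard_of_injOn P11_f ?_ ?_ hfin
  · rintro ⟨A, B⟩ ⟨⟨hA, hB, hd, he⟩, x, y, hy, hxy, hx⟩
    obtain ⟨e, he, hf⟩ := P11_f_spec he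
    simp only at hA hB hd he hf hxy
    rw [hf]
    have hb := root_bound H A B e hA hB he
    have hH : (0 : ℤ) ≤ H := Int.natCast_nonneg H
    have hBe : B = -e ^ 3 - A * e := by linarith
    have hdisc : 4 * A ^ 3 + 27 * B ^ 2 = (3 * e ^ 2 + 4 * A) * (3 * e ^ 2 + A) ^ 2 := by
      rw [hBe]
      ring
    rw [hdisc] at hd
    have he2 : e ^ 2 ≤ 4 * (H : ℤ) ^ 2 := by
      have h5 : |e| ^ 2 ≤ (2 * (H : ℤ)) ^ 2 := pow_le_pow_left₀ (abs_nonneg e) hb 2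
      rw [sq_abs] at h5
      linarith
    refine ⟨⟨?_, ?_, ?_, ?_⟩, x - e, y, hy, ?_, ?_⟩
    · show |3 * e| ≤ ((6 * H : ℕ) : ℤ)
      rw [abs_mul, abs_of_pos (by norm_num : (0 : ℤ) < 3)]
      push_cast
      linarith
    · show |3 * e ^ 2 + A| ≤ ((6 * H : ℕ) : ℤ) ^ 2
      have h1 : |3 * e ^ 2 + A| ≤ |3 * e ^ 2| + |A| := abs_add_le _ _
      have h2 : |3 * e ^ 2| = 3 * e ^ 2 := abs_of_nonneg (by positivity)
      push_cast
      nlinarith [sq_nonneg (H : ℤ)]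
    · show 3 * e ^ 2 + A ≠ 0
      intro h0
      apply hd
      rw [h0]
      ring
    · show (3 * e) ^ 2 - 4 * (3 * e ^ 2 + A) ≠ 0
      intro h0
      apply hd
      have h1 : 3 * e ^ 2 + 4 * A = 0 := by linarith
      rw [h1]
      ring
    · show y ^ 2 = (x - e) * ((x - e) ^ 2 + 3 * e * (x - e) + (3 * e ^ 2 + A))
      rw [hxy, hBe]
      ring
    · have h1 : |(e : ℝ)| ≤ 2 * (H : ℝ) := by
        have : ((|e| : ℤ) : ℝ) ≤ ((2 * (H : ℤ) : ℤ) : ℝ) := by exact_mod_cast hb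
        push_cast at this
        exact this
      have h2 : |(x : ℝ) - (e : ℝ)| ≤ |(x : ℝ)| + |(e : ℝ)| := abs_sub _ _
      have h3 : (0 : ℝ) ≤ H := Nat.cast_nonneg H
      push_cast
      linarith
  · rintro ⟨A, B⟩ ⟨⟨_, _, _, he⟩, _⟩ ⟨A', B'⟩ ⟨⟨_, _, _, he'⟩, _⟩ hff
    obtain ⟨e, he, hf⟩ := P11_f_spec he
    obtain ⟨e', he', hf'⟩ := P11_f_spec he'
    rw [hf, hf'] at hff
    simp only [Prod.mk.injEq] at hff he he' ⊢
    have h1 : e = e' := by linarith [hff.1]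
    subst h1
    have h2 : A = A' := by linarith [hff.2]
    subst h2
    exact ⟨rfl, by linarith⟩

private theorem P11_log {t : ℝ} (ht : 2 ≤ t) : Real.log (6 * t) ≤ 4 * Real.log t := by
  have h1 : Real.log (6 * t) ≤ Real.log (t ^ 4) := by
    refine Real.log_le_log (by linarith) ?_
    have h2 : 8 ≤ t ^ 3 := by
      have := pow_le_pow_left₀ (by norm_num : (0 : ℝ) ≤ 2) ht 3
      linarith
    nlinarith
  rwa [Real.log_pow] at h1

theorem famX_le : ∃ C : ℝ, 0 < C ∧ ∀ (H : ℕ) (X : ℝ), 2 ≤ H → (H : ℝ) ≤ X →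
    ((FamX H X).ncard : ℝ) ≤ C * ((H : ℝ) ^ 2 * √(H : ℝ)) * Real.log X * Real.log H ^ 2 := by
  obtain ⟨C, hC, h⟩ := badX_le
  refine ⟨C * 6912, by positivity, fun H X hH hHX => ?_⟩
  have hH2 : (2 : ℝ) ≤ H := by exact_mod_cast hH
  have hX2 : (2 : ℝ) ≤ X := hH2.trans hHX
  have h1 : ((FamX H X).ncard : ℝ) ≤ ((BadX (6 * H) (6 * X)).ncard : ℝ) := by
    exact_mod_cast P11_le H X hHX
  have h2 := h (6 * H) (6 * X) (by omega) (by push_cast; linarith)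
  push_cast at h2
  refine h1.trans (h2.trans ?_)
  have hs : √(6 * (H : ℝ)) ≤ 3 * √(H : ℝ) := by
    rw [show (3 : ℝ) * √(H : ℝ) = √(9 * (H : ℝ)) by
      rw [Real.sqrt_mul (by norm_num : (0 : ℝ) ≤ 9), show (9 : ℝ) = 3 ^ 2 by norm_num,
        Real.sqrt_sq (by norm_num)]]
    exact Real.sqrt_le_sqrt (by linarith)
  have hlX := P11_log hX2
  have hlH := P11_log hH2
  have hX0 : 0 ≤ Real.log (6 * X) := Real.log_nonneg (by linarith)
  have hH0 : 0 ≤ Real.log (6 * (H : ℝ)) := Real.log_nonneg (by linarith)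
  have hs0 : 0 ≤ √(H : ℝ) := Real.sqrt_nonneg _
  have hlX0 : 0 ≤ Real.log X := Real.log_nonneg (by linarith)
  calc C * ((6 * (H : ℝ)) ^ 2 * √(6 * (H : ℝ))) * Real.log (6 * X) * Real.log (6 * (H : ℝ)) ^ 2
      ≤ C * ((6 * (H : ℝ)) ^ 2 * (3 * √(H : ℝ))) * (4 * Real.log X) *
        (4 * Real.log (H : ℝ)) ^ 2 := by
        gcongr
    _ = C * 6912 * ((H : ℝ) ^ 2 * √(H : ℝ)) * Real.log X * Real.log H ^ 2 := by ring

end TP55
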