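import Mathlib

/-!
ROW [TP55 P2].  Many odd primes `≤ x` not dividing `n`.
(a) `Chebyshev.pi_ge`: `π n ≥ (n log 2 - log (n+1))/log n`; remove the prime `2`.
(b) A nonzero integer `n` with `|n| ≤ 2^k` has at most `k` prime divisors
(the product of the prime divisors divides `n`, each is at least `2`; `Nat.card_primeFactors..` or
`Finset.prod_le_prod`/`Nat.prod_primeFactors_dvd`).
-/

open Finset

namespace TP55

/-- the odd primes up to `x` -/
def odp (x : ℕ) : Finset ℕ := (Icc 3 x).filter Nat.Prime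

private theorem P2_pi (x : ℕ) (hx : 2 ≤ x) : Nat.primeCounting x = (odp x).card + 1 := by
  have h1 : (range (x + 1)).filter Nat.Prime = insert 2 (odp x) := by
    ext p
    simp only [odp, mem_filter, mem_range, mem_insert, mem_Icc]
    constructor
    · rintro ⟨h1, h2⟩
      have h3 := h2.two_le
      rcases Nat.eq_or_lt_of_le h3 with h4 | h4
      · exact Or.inl h4.symm
      · exact Or.inr ⟨⟨h4, by omega⟩, h2⟩
    · rintro (h | ⟨⟨h1, h2⟩, h3⟩)
      · subst h
        exact ⟨by omega, Nat.prime_two⟩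
      · exact ⟨by omega, h3⟩
  have h2 : (2 : ℕ) ∉ odp x := by
    simp [odp]
  rw [Nat.primeCounting_eq_primeCounting'_succ, Nat.primeCounting', Nat.count_eq_card_filter_range,
    h1, card_insert_of_notMem h2]

theorem odp_card : ∃ x₀ : ℕ, 3 ≤ x₀ ∧ ∀ x : ℕ, x₀ ≤ x → (x : ℝ) / (2 * Real.log x) ≤ ((odp x).card : ℝ) := by
  refine ⟨64, by norm_num, fun x hx => ?_⟩
  have hx1 : (64 : ℝ) ≤ (x : ℝ) := by exact_mod_cast hx
  have hx0 : (0 : ℝ) < (x : ℝ) := by linarith
  have hlog : 0 < Real.log x := Real.log_pos (by linarith)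
  have h1 := Chebyshev.pi_ge x
  rw [P2_pi x (by omega)] at h1
  push_cast at h1
  rw [div_le_iff₀ hlog] at h1
  have h2 : Real.log (x / 32) ≤ x / 32 - 1 := Real.log_le_sub_one_of_pos (by positivity)
  have h3 : Real.log (((x : ℝ) + 1) / 32) ≤ ((x : ℝ) + 1) / 32 - 1 :=
    Real.log_le_sub_one_of_pos (by positivity)
  rw [Real.log_div hx0.ne' (by norm_num)] at h2
  rw [Real.log_div (by positivity) (by norm_num)] at h3
  have h4 : Real.log 32 = 5 * Real.log 2 := by
    rw [show (32 : ℝ) = 2 ^ (5 : ℕ) by norm_num, Real.log_pow]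
    norm_num
  have h5 := Real.log_two_lt_d9
  have h6 := Real.log_two_gt_d9
  have h7 : (x : ℝ) * 0.6931471803 ≤ x * Real.log 2 :=
    mul_le_mul_of_nonneg_left h6.le hx0.le
  rw [div_le_iff₀ (by positivity)]
  nlinarith


theorem odp_dvd (x k : ℕ) (n : ℤ) (hn : n ≠ 0) (h : |n| ≤ 2 ^ k) :
    ((odp x).filter (fun p : ℕ => (p : ℤ) ∣ n)).card ≤ k := by
  have h1 : ∏ p ∈ (odp x).filter (fun p : ℕ => (p : ℤ) ∣ n), p ∣ n.natAbs := by
    refine Finset.prod_primes_dvd _ (fun p hp => ?_) (fun p hp => ?_)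
    · exact (mem_filter.1 (mem_filter.1 hp).1).2.prime
    · exact Int.natCast_dvd.1 (mem_filter.1 hp).2
  have h2 : 2 ^ ((odp x).filter (fun p : ℕ => (p : ℤ) ∣ n)).card ≤
      ∏ p ∈ (odp x).filter (fun p : ℕ => (p : ℤ) ∣ n), p := by
    rw [← Finset.prod_const]
    refine Finset.prod_le_prod (fun _ _ => Nat.zero_le _) fun p hp => ?_
    exact (mem_filter.1 (mem_filter.1 hp).1).2.two_le
  have h3 : n.natAbs ≤ 2 ^ k := by
    have : ((n.natAbs : ℕ) : ℤ) ≤ ((2 ^ k : ℕ) : ℤ) := by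
      rw [Int.natCast_natAbs]
      push_cast
      exact h
    exact_mod_cast this
  have h4 : 2 ^ ((odp x).filter (fun p : ℕ => (p : ℤ) ∣ n)).card ≤ 2 ^ k :=
    h2.trans ((Nat.le_of_dvd (Int.natAbs_pos.2 hn) h1).trans h3)
  exact (Nat.pow_le_pow_iff_right (by norm_num)).1 h4

end TP55
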