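import Pool.Agent.LibTP55.Defs

/-!
ROW [TP55 P3].  With `c = 4^j`, `QQ d j x y = (c + 1/c) x^2 + 2 (c - 1/c) √d x y + (c + 1/c) d y^2`, so
`(c + 1/c) QQ = ((c + 1/c) x + (c - 1/c) √d y)^2 + 4 d y^2 ≥ 4 d y^2`.  `QQ ≤ √(16/3 d) ≤ (5/2) √d`,
`c + 1/c ≤ 2c`: `4 d y^2 ≤ 5 c √d`, `y^2 ≤ (5/4) c/√d ≤ c = (2^j)^2` (`d ≥ 2`: `√d ≥ 1.41 ≥ 5/4`).
(b) `QQ d j x y ≥ 2 |x^2 - d y^2| ≥ 2` (`N78.norm_le`; `x^2 ≠ d y^2` since `d` is not a square and `(x,y) ≠ 0`).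
-/

namespace TP55

open N78

theorem y_le (d : ℤ) (hd : 2 ≤ d) (j : ℕ) (x y : ℤ) (h : QQ d j x y ^ 2 ≤ 16 / 3 * d) :
    |y| ≤ 2 ^ j := by
  have hd2 : (2 : ℝ) ≤ (d : ℝ) := by exact_mod_cast hd
  have hd0 : (0 : ℝ) ≤ (d : ℝ) := by linarith
  have hs : √(d : ℝ) ^ 2 = (d : ℝ) := Real.sq_sqrt hd0
  have hs0 : 0 < √(d : ℝ) := Real.sqrt_pos.2 (by linarith)
  have hs1 : 5 / 4 ≤ √(d : ℝ) := by
    refine Real.le_sqrt_of_sq_le ?_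
    norm_num
    linarith
  have hc1 : (1 : ℝ) ≤ 4 ^ j := one_le_pow₀ (by norm_num)
  have hc : (0 : ℝ) < 4 ^ j := by positivity
  have hic : (4 : ℝ) ^ j * (4 ^ j)⁻¹ = 1 := mul_inv_cancel₀ hc.ne'
  have hic0 : (0 : ℝ) < (4 ^ j)⁻¹ := by positivity
  have hic1 : ((4 : ℝ) ^ j)⁻¹ ≤ 4 ^ j := by
    have : ((4 : ℝ) ^ j)⁻¹ ≤ 1 := inv_le_one_of_one_le₀ hc1
    linarith
  have hQ0 : 0 ≤ QQ d j x y := by
    unfold QQ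
    positivity
  have hQ : QQ d j x y ≤ 5 / 2 * √(d : ℝ) := by
    refine le_of_sq_le_sq ?_ (by positivity)
    nlinarith
  have key : ((4 : ℝ) ^ j + (4 ^ j)⁻¹) * QQ d j x y =
      (((4 : ℝ) ^ j + (4 ^ j)⁻¹) * x + ((4 : ℝ) ^ j - (4 ^ j)⁻¹) * √(d : ℝ) * y) ^ 2 +
        4 * d * (y : ℝ) ^ 2 := by
    unfold QQ rv rc
    rw [div_eq_mul_inv]
    generalize ((4 : ℝ) ^ j)⁻¹ = i at hic ⊢
    generalize (4 : ℝ) ^ j = c at hic ⊢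
    linear_combination (4 * (y : ℝ) ^ 2 * √(d : ℝ) ^ 2) * hic + (4 * (y : ℝ) ^ 2) * hs
  have h1 : 4 * d * (y : ℝ) ^ 2 ≤ (2 * 4 ^ j) * (5 / 2 * √(d : ℝ)) := by
    calc 4 * d * (y : ℝ) ^ 2 ≤ ((4 : ℝ) ^ j + (4 ^ j)⁻¹) * QQ d j x y := by
          rw [key]
          nlinarith [sq_nonneg (((4 : ℝ) ^ j + (4 ^ j)⁻¹) * x +
            ((4 : ℝ) ^ j - (4 ^ j)⁻¹) * √(d : ℝ) * y)]
      _ ≤ (2 * 4 ^ j) * QQ d j x y := mul_le_mul_of_nonneg_right (by linarith) hQ0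
      _ ≤ _ := mul_le_mul_of_nonneg_left hQ (by positivity)
  have h2 : 4 * √(d : ℝ) * (y : ℝ) ^ 2 ≤ 5 * 4 ^ j := by
    have h3 : √(d : ℝ) * (4 * √(d : ℝ) * (y : ℝ) ^ 2) ≤ √(d : ℝ) * (5 * 4 ^ j) := by
      calc √(d : ℝ) * (4 * √(d : ℝ) * (y : ℝ) ^ 2) = 4 * √(d : ℝ) ^ 2 * (y : ℝ) ^ 2 := by ring
        _ = 4 * d * (y : ℝ) ^ 2 := by rw [hs]
        _ ≤ _ := h1
        _ = _ := by ring
    exact le_of_mul_le_mul_left h3 hs0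
  have h3 : (y : ℝ) ^ 2 ≤ 4 ^ j := by
    nlinarith [mul_nonneg (sub_nonneg.2 hs1) (sq_nonneg (y : ℝ))]
  have h4 : (|y| : ℤ) ^ 2 ≤ (2 ^ j) ^ 2 := by
    have h5 : ((|y| ^ 2 : ℤ) : ℝ) ≤ (((2 ^ j) ^ 2 : ℤ) : ℝ) := by
      rw [sq_abs]
      push_cast
      calc (y : ℝ) ^ 2 ≤ 4 ^ j := h3
        _ = (2 ^ j) ^ 2 := by
          rw [← pow_mul, mul_comm j 2, pow_mul]
          norm_num
    exact_mod_cast h5
  exact le_of_sq_le_sq h4 (by positivity)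

theorem two_le_QQ (d : ℤ) (hd : 2 ≤ d) (hns : ¬ IsSquare d) (j : ℕ) (x y : ℤ) (h : ¬ (x = 0 ∧ y = 0)) :
    2 ≤ QQ d j x y := by
  have h1 := N78.norm_le d (by omega) j x y
  have h2 : x ^ 2 - d * y ^ 2 ≠ 0 := by
    intro h0
    have h3 : x ^ 2 = d * y ^ 2 := by linarith
    by_cases hy : y = 0
    · subst hy
      have : x = 0 := by
        have h4 : x ^ 2 = 0 := by rw [h3]; ring
        exact pow_eq_zero_iff (two_ne_zero) |>.1 h4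
      exact h ⟨this, rfl⟩
    · have h5 : y ^ 2 ∣ x ^ 2 := ⟨d, by rw [h3]; ring⟩
      have h6 : y ∣ x := (Int.pow_dvd_pow_iff two_ne_zero).1 h5
      obtain ⟨k, hk⟩ := h6
      apply hns
      refine ⟨k, ?_⟩
      have h7 : y ^ 2 * (k * k) = y ^ 2 * d := by
        calc y ^ 2 * (k * k) = x ^ 2 := by rw [hk]; ring
          _ = y ^ 2 * d := by rw [h3]; ring
      exact (mul_left_cancel₀ (pow_ne_zero 2 hy) h7).symm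
  have h3 : (1 : ℤ) ≤ |x ^ 2 - d * y ^ 2| := Int.one_le_abs h2
  have h4 : (1 : ℝ) ≤ |((x ^ 2 - d * y ^ 2 : ℤ) : ℝ)| := by
    rw [← Int.cast_abs]
    exact_mod_cast h3
  linarith

end TP55
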