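import Pool.Agent.LibTP55.Defs
import Pool.Agent.LibN78.C1

/-!
ROW [TP55 P4].  The scale of a solution.  `m = u^2`, `ee d a (±w) m = e` (`w^2 = d u^4 + a u^2 + e`), `lam_mul`:
`lam * lam' = D := a^2 - 4 d e`, `1 ≤ |D| ≤ 5 H^2`.  Changing the sign of `w` exchanges `lam` and `lam'`: take the sign
with `|lam| ≥ |lam'|`.  `R = |lam/lam'| ≥ 1`, `j = ⌊log_16 R⌋` (natural number `j` with `16^j ≤ R < 16^(j+1)`,
e.g. `exists_nat_pow_near`): `lam^2 = |D| R < 5H^2 * 16 * 16^j ≤ (9 H 4^j)^2`, `lam'^2 = |D|/R ≤ 5H^2/16^j ≤ (3H/4^j)^2`.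
Size: `(√d w)^2 = d w^2 = (d u^2)^2 + a (d u^2) + d e ≤ X^2 + H X + H^2 ≤ 3 X^2`, `|lam| ≤ H + 2 X + 2 * 2 X ≤ 7 X`;
`16^j ≤ R = lam^2/|D| ≤ 49 X^2`, so `j log 16 ≤ log 49 + 2 log X`; `log 16 ≥ 2.77`, `log 49 ≤ 3.9`, `log X ≥ log 2 ≥ 0.69`:
`j ≤ 1.41 + 0.73 log X ≤ 3 log X`.
-/

namespace TP55

open N78

private theorem P4_core (H : ℕ) (X : ℝ) (hH : 2 ≤ H) (hX : (H : ℝ) ≤ X) (d a e u w : ℤ)
    (hd : 2 ≤ d) (ha : |a| ≤ (H : ℤ)) (hde : |d * e| ≤ (H : ℤ) ^ 2) (he : e ≠ 0)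
    (hD : a ^ 2 - 4 * (d * e) ≠ 0) (hu : 0 < u) (h : w ^ 2 = d * u ^ 4 + a * u ^ 2 + e)
    (hs : (d : ℝ) * (u : ℝ) ^ 2 ≤ X) (hle : |lam' d a w (u ^ 2)| ≤ |lam d a w (u ^ 2)|) :
    ∃ j : ℕ, (j : ℝ) ≤ 3 * Real.log X ∧ (a, w, u ^ 2) ∈ Vec H d j ∧ ee d a w (u ^ 2) = e := by
  have hee : ee d a w (u ^ 2) = e := by
    unfold ee
    linear_combination h
  have hmul := N78.lam_mul d (by omega) a w (u ^ 2)
  rw [hee] at hmul
  have hd2 : (2 : ℝ) ≤ (d : ℝ) := by exact_mod_cast hd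
  have hH2 : (2 : ℝ) ≤ (H : ℝ) := by exact_mod_cast hH
  have hX2 : (2 : ℝ) ≤ X := hH2.trans hX
  have haR : |(a : ℝ)| ≤ (H : ℝ) := by
    rw [← Int.cast_abs]
    exact_mod_cast ha
  have hdeR : |(d : ℝ) * e| ≤ (H : ℝ) ^ 2 := by
    have h1 : ((|d * e| : ℤ) : ℝ) ≤ (((H : ℤ) ^ 2 : ℤ) : ℝ) := by exact_mod_cast hde
    rw [Int.cast_abs] at h1
    push_cast at h1
    exact h1
  have hD1 : (1 : ℝ) ≤ |((a ^ 2 - 4 * d * e : ℤ) : ℝ)| := by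
    rw [← Int.cast_abs]
    have h1 : a ^ 2 - 4 * d * e ≠ 0 := by
      intro h0
      apply hD
      linarith
    exact_mod_cast Int.one_le_abs h1
  have hD5 : |((a ^ 2 - 4 * d * e : ℤ) : ℝ)| ≤ 5 * (H : ℝ) ^ 2 := by
    have h1 : (a : ℝ) ^ 2 ≤ (H : ℝ) ^ 2 := by
      rw [← sq_abs (a : ℝ)]
      exact pow_le_pow_left₀ (abs_nonneg _) haR 2
    have h2 := abs_le.1 hdeR
    push_cast
    rw [abs_le]
    constructor <;> nlinarith [sq_nonneg (a : ℝ)]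
  have habs : |lam d a w (u ^ 2)| * |lam' d a w (u ^ 2)| = |((a ^ 2 - 4 * d * e : ℤ) : ℝ)| := by
    rw [← abs_mul, hmul]
  -- the size
  have hw : |2 * (w : ℝ) * √(d : ℝ)| ≤ 4 * X := by
    have h1 : √(d : ℝ) ^ 2 = (d : ℝ) := Real.sq_sqrt (by linarith)
    have h2 : (w : ℝ) ^ 2 = d * (u : ℝ) ^ 4 + a * (u : ℝ) ^ 2 + e := by exact_mod_cast h
    have h3 : 0 ≤ (d : ℝ) * (u : ℝ) ^ 2 := by positivity
    have h4 : (2 * (w : ℝ) * √(d : ℝ)) ^ 2 ≤ (4 * X) ^ 2 := by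
      have e1 : (2 * (w : ℝ) * √(d : ℝ)) ^ 2 =
          4 * (((d : ℝ) * (u : ℝ) ^ 2) ^ 2 + a * ((d : ℝ) * (u : ℝ) ^ 2) + d * e) := by
        calc (2 * (w : ℝ) * √(d : ℝ)) ^ 2 = 4 * (w : ℝ) ^ 2 * √(d : ℝ) ^ 2 := by ring
          _ = 4 * (d * (u : ℝ) ^ 4 + a * (u : ℝ) ^ 2 + e) * d := by rw [h1, h2]
          _ = _ := by ring
      have e2 : ((d : ℝ) * (u : ℝ) ^ 2) ^ 2 ≤ X ^ 2 := pow_le_pow_left₀ h3 hs 2
      have e3 : (a : ℝ) * ((d : ℝ) * (u : ℝ) ^ 2) ≤ X * X := by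
        have e4 : (a : ℝ) ≤ X := (le_abs_self _).trans (haR.trans hX)
        calc (a : ℝ) * ((d : ℝ) * (u : ℝ) ^ 2) ≤ X * ((d : ℝ) * (u : ℝ) ^ 2) :=
              mul_le_mul_of_nonneg_right e4 h3
          _ ≤ X * X := mul_le_mul_of_nonneg_left hs (by linarith)
      have e5 : (d : ℝ) * e ≤ X ^ 2 := by
        have e6 := (abs_le.1 hdeR).2
        have e7 : (H : ℝ) ^ 2 ≤ X ^ 2 := pow_le_pow_left₀ (by linarith) hX 2
        linarith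
      rw [e1]
      nlinarith
    exact abs_le_of_sq_le_sq h4 (by linarith)
  have hL7 : |lam d a w (u ^ 2)| ≤ 7 * X := by
    have h1 : lam d a w (u ^ 2) = a + 2 * ((d : ℝ) * (u : ℝ) ^ 2) + 2 * w * √(d : ℝ) := by
      unfold lam
      push_cast
      ring
    rw [h1]
    have h3 : 0 ≤ (d : ℝ) * (u : ℝ) ^ 2 := by positivity
    have h4 := abs_le.1 hw
    have h5 := abs_le.1 haR
    rw [abs_le]
    constructor <;> nlinarith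
  have hL'0 : 0 < |lam' d a w (u ^ 2)| := by
    rcases (abs_nonneg (lam' d a w (u ^ 2))).lt_or_eq with h1 | h1
    · exact h1
    · rw [← h1, mul_zero] at habs
      linarith
  have hR1 : 1 ≤ |lam d a w (u ^ 2)| / |lam' d a w (u ^ 2)| := (one_le_div hL'0).2 hle
  obtain ⟨j, hj1, hj2⟩ := exists_nat_pow_near hR1 (show (1 : ℝ) < 16 by norm_num)
  have h16 : (16 : ℝ) ^ j = (4 ^ j) ^ 2 := by
    rw [← pow_mul, mul_comm j 2, pow_mul]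
    norm_num
  have h4p : (0 : ℝ) < 4 ^ j := by positivity
  have hLsq : |lam d a w (u ^ 2)| ^ 2 = |((a ^ 2 - 4 * d * e : ℤ) : ℝ)| *
      (|lam d a w (u ^ 2)| / |lam' d a w (u ^ 2)|) := by
    rw [← habs]
    field_simp
  have hL'sq : |lam' d a w (u ^ 2)| ^ 2 * (|lam d a w (u ^ 2)| / |lam' d a w (u ^ 2)|) =
      |((a ^ 2 - 4 * d * e : ℤ) : ℝ)| := by
    rw [← habs]
    field_simp
  refine ⟨j, ?_, ⟨ha, ?_, ?_, ⟨u, by ring⟩, by positivity, by rw [hee]; exact he,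
    by rw [hee]; exact hde⟩, hee⟩
  · have h1 : (16 : ℝ) ^ j ≤ 49 * X ^ 2 := by
      calc (16 : ℝ) ^ j ≤ |lam d a w (u ^ 2)| / |lam' d a w (u ^ 2)| := hj1
        _ ≤ |((a ^ 2 - 4 * d * e : ℤ) : ℝ)| * (|lam d a w (u ^ 2)| / |lam' d a w (u ^ 2)|) :=
          le_mul_of_one_le_left (by linarith) hD1
        _ = |lam d a w (u ^ 2)| ^ 2 := hLsq.symm
        _ ≤ (7 * X) ^ 2 := pow_le_pow_left₀ (abs_nonneg _) hL7 2
        _ = _ := by ring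
    have h2 : (16 : ℝ) ^ j ≤ 2 ^ 6 * X ^ 2 := h1.trans (by nlinarith [sq_nonneg X])
    have h3 := Real.log_le_log (by positivity) h2
    rw [Real.log_mul (by norm_num) (by positivity), Real.log_pow, Real.log_pow, Real.log_pow,
      show (16 : ℝ) = 2 ^ 4 by norm_num, Real.log_pow] at h3
    push_cast at h3
    have h4 := Real.log_two_gt_d9
    have h5 : Real.log 2 ≤ Real.log X := Real.log_le_log (by norm_num) hX2
    have h6 : (j : ℝ) * (4 * Real.log 2) ≤ (3 * Real.log X) * (4 * Real.log 2) := by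
      nlinarith
    exact le_of_mul_le_mul_right h6 (by linarith)
  · show |lam d a w (u ^ 2)| ≤ 9 * H * 4 ^ j
    refine le_of_sq_le_sq ?_ (by positivity)
    calc |lam d a w (u ^ 2)| ^ 2 = |((a ^ 2 - 4 * d * e : ℤ) : ℝ)| *
          (|lam d a w (u ^ 2)| / |lam' d a w (u ^ 2)|) := hLsq
      _ ≤ (5 * (H : ℝ) ^ 2) * 16 ^ (j + 1) :=
        mul_le_mul hD5 hj2.le (by positivity) (by positivity)
      _ = 80 * (H : ℝ) ^ 2 * (4 ^ j) ^ 2 := by rw [pow_succ (16 : ℝ) j, h16]; ring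
      _ ≤ 81 * (H : ℝ) ^ 2 * (4 ^ j) ^ 2 := by
        have : 0 ≤ (H : ℝ) ^ 2 * (4 ^ j) ^ 2 := by positivity
        nlinarith
      _ = (9 * H * 4 ^ j) ^ 2 := by ring
  · show |lam' d a w (u ^ 2)| ≤ 3 * H / 4 ^ j
    rw [le_div_iff₀ h4p]
    refine le_of_sq_le_sq ?_ (by positivity)
    calc (|lam' d a w (u ^ 2)| * 4 ^ j) ^ 2 = |lam' d a w (u ^ 2)| ^ 2 * 16 ^ j := by
          rw [h16]
          ring
      _ ≤ |lam' d a w (u ^ 2)| ^ 2 * (|lam d a w (u ^ 2)| / |lam' d a w (u ^ 2)|) :=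
        mul_le_mul_of_nonneg_left hj1 (by positivity)
      _ = |((a ^ 2 - 4 * d * e : ℤ) : ℝ)| := hL'sq
      _ ≤ 5 * (H : ℝ) ^ 2 := hD5
      _ ≤ (3 * H) ^ 2 := by nlinarith [sq_nonneg (H : ℝ)]

theorem to_vec (H : ℕ) (X : ℝ) (hH : 2 ≤ H) (hX : (H : ℝ) ≤ X) (d a e u w : ℤ) (hd : 2 ≤ d)
    (ha : |a| ≤ (H : ℤ)) (hde : |d * e| ≤ (H : ℤ) ^ 2) (he : e ≠ 0) (hD : a ^ 2 - 4 * (d * e) ≠ 0)
    (hu : 0 < u) (h : w ^ 2 = d * u ^ 4 + a * u ^ 2 + e) (hs : (d : ℝ) * (u : ℝ) ^ 2 ≤ X) :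
    ∃ (j : ℕ) (w' : ℤ), (j : ℝ) ≤ 3 * Real.log X ∧ (a, w', u ^ 2) ∈ Vec H d j ∧
      ee d a w' (u ^ 2) = e := by
  rcases le_total |lam' d a w (u ^ 2)| |lam d a w (u ^ 2)| with hc | hc
  · obtain ⟨j, hj⟩ := P4_core H X hH hX d a e u w hd ha hde he hD hu h hs hc
    exact ⟨j, w, hj⟩
  · have h1 : lam d a (-w) (u ^ 2) = lam' d a w (u ^ 2) := by
      unfold lam lam'
      push_cast
      ring
    have h2 : lam' d a (-w) (u ^ 2) = lam d a w (u ^ 2) := by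
      unfold lam lam'
      push_cast
      ring
    obtain ⟨j, hj⟩ := P4_core H X hH hX d a e u (-w) hd ha hde he hD hu (by rw [neg_sq]; exact h) hs
      (by rw [h1, h2]; exact hc)
    exact ⟨j, -w, hj⟩

end TP55
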