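import Pool.Agent.LibTP55.P1
import Pool.Agent.LibTP55.P2

/-!
ROW [TP55 P5].  Integer points of a box with a linear form `f y2^2 - 2 b y1 y2 + g y1^2` equal to a square.
PROOF.  Let `x₀` be as in `odp_card`; put `q = ⌊√K1⌋`.  If `q < x₀`: `#T ≤ ∏ (2 K i + 1) ≤ 27 K1 K2 K3`
(`K i ≥ 1`), and `√K1 ≤ x₀ + 1`: done.  Otherwise `n0 := #(odp q) ≥ q/(2 log q) ≥ √K1/(4 (1 + log K1))`.  `y1`, `y2` are coprime: no `p ∈ odp q`
divides both, so `A = {p ∈ odp q : p ∤ y2}` or `B = {p ∈ odp q : p ∤ y1}` has at least `n0/2` elements.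
(A) for fixed `(b, g)` the `f` with `(f, b, g) ∈ T` are in `[-K1, K1]`, at most `N = 2⌊K1⌋ + 1 ≥ q^2` integers, and
`(- 2 b y1 y2 + g y1^2) + f y2^2` is a square: `sq_ap` (`β = y2^2`, `p ∤ y2^2`): at most `18 N/(n0/2) ≤ 108 K1/n0`; there are at most `(3 K2)(3 K3)` pairs.
(B) for fixed `(f, b)` the `g ∈ [-K3, K3]`, `N = 2⌊K3⌋ + 1 ≥ q^2` (`K3 ≥ K1`), `β = y1^2`: at most `108 K3/n0`; `(3 K1)(3 K2)` pairs.
Both are `≤ C K1 K2 K3 (1 + log K1)/√K1`.
-/

open Finset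

namespace TP55

private theorem P5_box (K : ℝ) (hK : 1 ≤ K) : ((Icc (-⌊K⌋) ⌊K⌋).card : ℝ) ≤ 3 * K := by
  have h0 : (0 : ℤ) ≤ ⌊K⌋ := Int.floor_nonneg.2 (by linarith)
  rw [Int.card_Icc]
  have h1 : (((⌊K⌋ + 1 - -⌊K⌋).toNat : ℕ) : ℝ) = ((⌊K⌋ + 1 - -⌊K⌋ : ℤ) : ℝ) := by
    have h2 : (((⌊K⌋ + 1 - -⌊K⌋).toNat : ℕ) : ℤ) = (⌊K⌋ + 1 - -⌊K⌋ : ℤ) :=
      Int.toNat_of_nonneg (by linarith)
    exact_mod_cast congrArg (Int.cast : ℤ → ℝ) h2
  rw [h1]
  push_cast
  have := Int.floor_le K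
  linarith

private theorem P5_mem (K : ℝ) (z : ℤ) (h : |(z : ℝ)| ≤ K) : z ∈ Icc (-⌊K⌋) ⌊K⌋ := by
  obtain ⟨h1, h2⟩ := abs_le.1 h
  refine mem_Icc.2 ⟨?_, Int.le_floor.2 h2⟩
  have h3 : -z ≤ ⌊K⌋ := Int.le_floor.2 (by push_cast; linarith)
  linarith

private theorem P5_fiber (x₀ : ℕ) (hx0 : 3 ≤ x₀)
    (hodp : ∀ x : ℕ, x₀ ≤ x → (x : ℝ) / (2 * Real.log x) ≤ ((odp x).card : ℝ))
    (K : ℝ) (q : ℕ) (hq : x₀ ≤ q) (hqK : ((q : ℝ)) ^ 2 ≤ K) (P : Finset ℕ) (hP : P ⊆ odp q)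
    (hPc : (q : ℝ) / (4 * Real.log q) ≤ (P.card : ℝ)) (α β : ℤ)
    (hβ : ∀ p ∈ P, ¬ (p : ℤ) ∣ β) (s : Finset ℤ)
    (hs : ∀ k ∈ s, |(k : ℝ)| ≤ K ∧ IsSquare (α + k * β)) :
    (s.card : ℝ) ≤ 216 * K * (Real.log q / q) := by
  have h3 : 3 ≤ q := hx0.trans hq
  have h3' : (3 : ℝ) ≤ q := by exact_mod_cast h3
  have hlq : 0 < Real.log q := Real.log_pos (by linarith)
  have hK1 : 1 ≤ K := by nlinarith
  have hfl : (0 : ℤ) ≤ ⌊K⌋ := Int.floor_nonneg.2 (by linarith)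
  have hqf : ((q ^ 2 : ℕ) : ℤ) ≤ ⌊K⌋ := Int.le_floor.2 (by push_cast; exact hqK)
  have hal := sq_ap P q (2 * ⌊K⌋ + 1).toNat (by
      rw [Int.lt_toNat]; push_cast; linarith) (by
      apply (Int.le_toNat (by linarith)).2
      linarith) (by
      intro p hp
      have h8 := mem_filter.1 (hP hp)
      have h9 := mem_Icc.1 h8.1
      exact ⟨h8.2, by omega, h9.2⟩) α β hβ (-⌊K⌋) s (by
      intro t ht
      have h10 := mem_Icc.1 (P5_mem K t (hs t ht).1)
      refine mem_Ico.2 ⟨h10.1, ?_⟩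
      rw [Int.toNat_of_nonneg (by linarith)]
      linarith [h10.2]) (fun t ht => (hs t ht).2)
  have hN : (((2 * ⌊K⌋ + 1).toNat : ℕ) : ℝ) ≤ 3 * K := by
    have h2 : (((2 * ⌊K⌋ + 1).toNat : ℕ) : ℤ) = (2 * ⌊K⌋ + 1 : ℤ) :=
      Int.toNat_of_nonneg (by linarith)
    have h4 : (((2 * ⌊K⌋ + 1).toNat : ℕ) : ℝ) = ((2 * ⌊K⌋ + 1 : ℤ) : ℝ) := by
      exact_mod_cast congrArg (Int.cast : ℤ → ℝ) h2
    rw [h4]
    push_cast
    have := Int.floor_le K
    linarith
  have hq0 : (0 : ℝ) < q := by linarith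
  have h5 : (q : ℝ) / (4 * Real.log q) * s.card ≤ 54 * K := by
    have := mul_le_mul_of_nonneg_right hPc (Nat.cast_nonneg (α := ℝ) s.card)
    linarith
  have h6 : (q : ℝ) / (4 * Real.log q) * s.card ≤
      (q : ℝ) / (4 * Real.log q) * (216 * K * (Real.log q / q)) := by
    refine h5.trans (le_of_eq ?_)
    field_simp
    norm_num
  exact le_of_mul_le_mul_left h6 (by positivity)

private theorem P5_maps {α β : Type} [DecidableEq β] (s : Finset α) (t : Finset β) (f : α → β)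
    (hf : ∀ a ∈ s, f a ∈ t) (M : ℝ) (hM : ∀ b ∈ t, ((s.filter (fun a => f a = b)).card : ℝ) ≤ M) :
    (s.card : ℝ) ≤ t.card * M := by
  have h1 := card_eq_sum_card_fiberwise (f := f) (s := s) (t := t) hf
  rw [h1]
  push_cast
  refine (sum_le_sum hM).trans (le_of_eq ?_)
  rw [sum_const, nsmul_eq_mul]

theorem box_squares : ∃ C : ℝ, 0 < C ∧ ∀ (K1 K2 K3 : ℝ) (y1 y2 : ℤ), 1 ≤ K1 → K1 ≤ K2 → K2 ≤ K3 →
    IsCoprime y1 y2 → ∀ T : Finset (ℤ × ℤ × ℤ),
    (∀ t ∈ T, |(t.1 : ℝ)| ≤ K1 ∧ |(t.2.1 : ℝ)| ≤ K2 ∧ |(t.2.2 : ℝ)| ≤ K3 ∧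
      IsSquare (t.1 * y2 ^ 2 - 2 * t.2.1 * y1 * y2 + t.2.2 * y1 ^ 2)) →
    (T.card : ℝ) ≤ C * (K1 * K2 * K3) * (1 + Real.log K1) / √K1 := by
  classical
  obtain ⟨x₀, hx0, hodp⟩ := odp_card
  refine ⟨4000 + 27 * x₀, by positivity, ?_⟩
  intro K1 K2 K3 y1 y2 hK1 hK12 hK23 hcop T hT
  have hK2 : 1 ≤ K2 := hK1.trans hK12
  have hK3 : 1 ≤ K3 := hK2.trans hK23
  have hs1 : 1 ≤ √K1 := Real.one_le_sqrt.2 hK1
  have hs0 : 0 < √K1 := by linarith
  have hs2 : √K1 * √K1 = K1 := Real.mul_self_sqrt (by linarith)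
  have hL0 : 0 ≤ Real.log K1 := Real.log_nonneg hK1
  have hKK : 0 < K1 * K2 * K3 := by positivity
  set q : ℕ := ⌊√K1⌋₊ with hqdef
  have hq1 : (q : ℝ) ≤ √K1 := Nat.floor_le hs0.le
  have hq2 : √K1 < q + 1 := Nat.lt_floor_add_one _
  have hx3 : (3 : ℝ) ≤ x₀ := by exact_mod_cast hx0
  by_cases hcase : x₀ ≤ q
  · have hxq : (x₀ : ℝ) ≤ q := by exact_mod_cast hcase
    have hq3 : (3 : ℝ) ≤ q := hx3.trans hxq
    have hq0 : (0 : ℝ) < q := by linarith
    have hlq : 0 < Real.log q := Real.log_pos (by linarith)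
    have hqK : (q : ℝ) ^ 2 ≤ K1 := by
      rw [← hs2, pow_two]
      exact mul_le_mul hq1 hq1 hq0.le hs0.le
    have hc := hodp q hcase
    -- log q / q ≤ (1 + log K1)/√K1
    have hlogq : Real.log q ≤ Real.log K1 / 2 := by
      have h1 := Real.log_le_log hq0 hq1
      rwa [Real.log_sqrt (by linarith)] at h1
    have hratio : Real.log q / q ≤ (1 + Real.log K1) / √K1 := by
      rw [div_le_div_iff₀ hq0 hs0]
      have h1 : √K1 ≤ 2 * q := by linarith
      nlinarith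
    have hratio0 : 0 ≤ Real.log q / q := by positivity
    set A : Finset ℕ := (odp q).filter (fun p : ℕ => ¬ (p : ℤ) ∣ y2) with hA
    set B : Finset ℕ := (odp q).filter (fun p : ℕ => ¬ (p : ℤ) ∣ y1) with hB
    have hcov : odp q ⊆ A ∪ B := by
      intro p hp
      have hpp : p.Prime := (mem_filter.1 hp).2
      by_contra hcon
      rw [mem_union, not_or] at hcon
      have h1 : (p : ℤ) ∣ y2 := by
        by_contra h; exact hcon.1 (mem_filter.2 ⟨hp, h⟩)
      have h2 : (p : ℤ) ∣ y1 := by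
        by_contra h; exact hcon.2 (mem_filter.2 ⟨hp, h⟩)
      have h3 : IsUnit (p : ℤ) := hcop.isUnit_of_dvd' h2 h1
      have h4 := Int.isUnit_iff_natAbs_eq.1 h3
      rw [Int.natAbs_natCast] at h4
      exact hpp.one_lt.ne' h4
    have hAB : ((odp q).card : ℝ) ≤ (A.card : ℝ) + B.card := by
      have := (card_le_card hcov).trans (card_union_le A B)
      exact_mod_cast this
    have hquart : (q : ℝ) / (4 * Real.log q) = (q : ℝ) / (2 * Real.log q) / 2 := by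
      field_simp; norm_num
    have hmain : (T.card : ℝ) ≤ 1944 * (K1 * K2 * K3) * (Real.log q / q) := by
      by_cases hAc : (q : ℝ) / (4 * Real.log q) ≤ (A.card : ℝ)
      · have hm := P5_maps T (Icc (-⌊K2⌋) ⌊K2⌋ ×ˢ Icc (-⌊K3⌋) ⌊K3⌋) (fun t => t.2) (by
          intro t ht
          obtain ⟨_, h2, h3, _⟩ := hT t ht
          exact mem_product.2 ⟨P5_mem K2 _ h2, P5_mem K3 _ h3⟩) (216 * K1 * (Real.log q / q)) (by
          intro b _
          have hinj : ((T.filter (fun t => t.2 = b)).image (fun t => t.1)).card =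
              (T.filter (fun t => t.2 = b)).card := by
            apply card_image_of_injOn
            intro t ht t' ht' h
            have e1 := (mem_filter.1 (mem_coe.1 ht)).2
            have e2 := (mem_filter.1 (mem_coe.1 ht')).2
            exact Prod.ext h (e1.trans e2.symm)
          rw [← hinj]
          apply P5_fiber x₀ hx0 hodp K1 q hcase hqK A (filter_subset _ _) hAc
            (-2 * b.1 * y1 * y2 + b.2 * y1 ^ 2) (y2 ^ 2)
          · intro p hp hdvd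
            have hpp : p.Prime := (mem_filter.1 (mem_filter.1 hp).1).2
            have hpp' : Prime (p : ℤ) := Nat.prime_iff_prime_int.1 hpp
            exact (mem_filter.1 hp).2 (hpp'.dvd_of_dvd_pow hdvd)
          · intro k hk
            obtain ⟨t, ht, rfl⟩ := mem_image.1 hk
            obtain ⟨ht1, ht2⟩ := mem_filter.1 ht
            obtain ⟨h1, _, _, h4⟩ := hT t ht1
            refine ⟨h1, ?_⟩
            rw [← ht2]
            have e : -2 * t.2.1 * y1 * y2 + t.2.2 * y1 ^ 2 + t.1 * y2 ^ 2 =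
                t.1 * y2 ^ 2 - 2 * t.2.1 * y1 * y2 + t.2.2 * y1 ^ 2 := by ring
            rw [e]
            exact h4)
        refine hm.trans ?_
        rw [card_product]
        push_cast
        have h1 := P5_box K2 hK2
        have h2 := P5_box K3 hK3
        have h3 : ((Icc (-⌊K2⌋) ⌊K2⌋).card : ℝ) * ((Icc (-⌊K3⌋) ⌊K3⌋).card : ℝ) ≤
            (3 * K2) * (3 * K3) := mul_le_mul h1 h2 (Nat.cast_nonneg _) (by positivity)
        calc _ ≤ (3 * K2) * (3 * K3) * (216 * K1 * (Real.log q / q)) :=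
              mul_le_mul_of_nonneg_right h3 (by positivity)
          _ = _ := by ring
      · have hBc : (q : ℝ) / (4 * Real.log q) ≤ (B.card : ℝ) := by
          rw [hquart] at hAc ⊢
          linarith
        have hqK3 : (q : ℝ) ^ 2 ≤ K3 := hqK.trans (hK12.trans hK23)
        have hm := P5_maps T (Icc (-⌊K1⌋) ⌊K1⌋ ×ˢ Icc (-⌊K2⌋) ⌊K2⌋) (fun t => (t.1, t.2.1)) (by
          intro t ht
          obtain ⟨h1, h2, _, _⟩ := hT t ht
          exact mem_product.2 ⟨P5_mem K1 _ h1, P5_mem K2 _ h2⟩) (216 * K3 * (Real.log q / q)) (by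
          intro b _
          have hinj : ((T.filter (fun t => (t.1, t.2.1) = b)).image (fun t => t.2.2)).card =
              (T.filter (fun t => (t.1, t.2.1) = b)).card := by
            apply card_image_of_injOn
            intro t ht t' ht' h
            have e1 := (mem_filter.1 (mem_coe.1 ht)).2
            have e2 := (mem_filter.1 (mem_coe.1 ht')).2
            have e3 := Prod.ext_iff.1 (e1.trans e2.symm)
            exact Prod.ext e3.1 (Prod.ext e3.2 h)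
          rw [← hinj]
          apply P5_fiber x₀ hx0 hodp K3 q hcase hqK3 B (filter_subset _ _) hBc
            (b.1 * y2 ^ 2 - 2 * b.2 * y1 * y2) (y1 ^ 2)
          · intro p hp hdvd
            have hpp : p.Prime := (mem_filter.1 (mem_filter.1 hp).1).2
            have hpp' : Prime (p : ℤ) := Nat.prime_iff_prime_int.1 hpp
            exact (mem_filter.1 hp).2 (hpp'.dvd_of_dvd_pow hdvd)
          · intro k hk
            obtain ⟨t, ht, rfl⟩ := mem_image.1 hk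
            obtain ⟨ht1, ht2⟩ := mem_filter.1 ht
            obtain ⟨_, _, h3, h4⟩ := hT t ht1
            refine ⟨h3, ?_⟩
            rw [← ht2]
            exact h4)
        refine hm.trans ?_
        rw [card_product]
        push_cast
        have h1 := P5_box K1 hK1
        have h2 := P5_box K2 hK2
        have h3 : ((Icc (-⌊K1⌋) ⌊K1⌋).card : ℝ) * ((Icc (-⌊K2⌋) ⌊K2⌋).card : ℝ) ≤
            (3 * K1) * (3 * K2) := mul_le_mul h1 h2 (Nat.cast_nonneg _) (by positivity)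
        calc _ ≤ (3 * K1) * (3 * K2) * (216 * K3 * (Real.log q / q)) :=
              mul_le_mul_of_nonneg_right h3 (by positivity)
          _ = _ := by ring
    calc (T.card : ℝ) ≤ 1944 * (K1 * K2 * K3) * (Real.log q / q) := hmain
      _ ≤ 1944 * (K1 * K2 * K3) * ((1 + Real.log K1) / √K1) :=
          mul_le_mul_of_nonneg_left hratio (by positivity)
      _ ≤ (4000 + 27 * x₀) * (K1 * K2 * K3) * ((1 + Real.log K1) / √K1) := by
          apply mul_le_mul_of_nonneg_right _ (by positivity)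
          apply mul_le_mul_of_nonneg_right _ hKK.le
          linarith
      _ = _ := by ring
  · push Not at hcase
    have hcq : (q : ℝ) + 1 ≤ x₀ := by exact_mod_cast hcase
    have h1 : √K1 ≤ x₀ := by linarith
    have hsub : T ⊆ Icc (-⌊K1⌋) ⌊K1⌋ ×ˢ (Icc (-⌊K2⌋) ⌊K2⌋ ×ˢ Icc (-⌊K3⌋) ⌊K3⌋) := by
      intro t ht
      obtain ⟨h1, h2, h3, _⟩ := hT t ht
      exact mem_product.2 ⟨P5_mem K1 _ h1, mem_product.2 ⟨P5_mem K2 _ h2, P5_mem K3 _ h3⟩⟩
    have hc := card_le_card hsub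
    rw [card_product, card_product] at hc
    have hc' : (T.card : ℝ) ≤ ((Icc (-⌊K1⌋) ⌊K1⌋).card : ℝ) *
        (((Icc (-⌊K2⌋) ⌊K2⌋).card : ℝ) * ((Icc (-⌊K3⌋) ⌊K3⌋).card : ℝ)) := by exact_mod_cast hc
    have e1 := P5_box K1 hK1
    have e2 := P5_box K2 hK2
    have e3 := P5_box K3 hK3
    have h4 : (T.card : ℝ) ≤ (3 * K1) * ((3 * K2) * (3 * K3)) := by
      refine hc'.trans ?_
      apply mul_le_mul e1 _ (by positivity) (by positivity)
      exact mul_le_mul e2 e3 (Nat.cast_nonneg _) (by positivity)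
    have h5 : (3 * K1) * ((3 * K2) * (3 * K3)) = 27 * (K1 * K2 * K3) := by ring
    rw [h5] at h4
    refine h4.trans ?_
    rw [le_div_iff₀ hs0]
    have h6 : 27 * (K1 * K2 * K3) * √K1 ≤ 27 * (K1 * K2 * K3) * x₀ :=
      mul_le_mul_of_nonneg_left h1 (by positivity)
    refine h6.trans ?_
    have h7 : (4000 + 27 * (x₀ : ℝ)) * (K1 * K2 * K3) * (1 + Real.log K1) =
        27 * (K1 * K2 * K3) * x₀ + (4000 * (K1 * K2 * K3) +
          (4000 + 27 * (x₀ : ℝ)) * (K1 * K2 * K3) * Real.log K1) := by ring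
    rw [h7]
    have h8 : 0 ≤ 4000 * (K1 * K2 * K3) +
          (4000 + 27 * (x₀ : ℝ)) * (K1 * K2 * K3) * Real.log K1 := by positivity
    linarith

end TP55
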