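import Pool.Agent.LibTP55.P1
import Pool.Agent.LibTP55.P2

/-!
ROW [TP55 P6].  Squares in a progression whose difference has few prime divisors.
PROOF.  `q = ⌈100 √H log H⌉` (or another constant): for `H` large (`x₀` of `odp_card`, `x/(2 log x)` with `log q ≤ 2 log H`)
`#(odp q) ≥ q/(2 log q) ≥ 25 √H`; at most `k ≤ 5 √H` of these primes divide `y` (`odp_dvd`), so
`P = {p ∈ odp q : p ∤ y}` has at least `√H` elements.  `sq_ap` with `β = y^2`, `N = max (14 H + 1) (q^2) ≤ C H (log H)^2`, `T ⊆ [-7H, 7H]`: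
`#T ≤ 18 N/√H`.  For `H < H₀`: `#T ≤ 14 H + 1`, enlarge `C` (`log H ≥ log 2`).
-/

open Finset

namespace TP55

private theorem P6_log2 : (0.69 : ℝ) ≤ Real.log 2 := by
  have := Real.log_two_gt_d9
  linarith

private theorem P6_logq (H : ℕ) (hH : 2 ≤ H) (q : ℝ) (hq0 : 0 < q)
    (hq : q ≤ 202 * (√(H : ℝ) * Real.log H)) : Real.log q ≤ 10 * Real.log H := by
  have hH' : (2 : ℝ) ≤ H := by exact_mod_cast hH
  have hH0 : (0 : ℝ) < H := by linarith
  have hL : Real.log 2 ≤ Real.log H := Real.log_le_log (by norm_num) hH'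
  have hL0 : (0 : ℝ) < Real.log H := by linarith [P6_log2]
  have hs0 : (0 : ℝ) < √(H : ℝ) := Real.sqrt_pos.2 hH0
  have h1 : Real.log q ≤ Real.log (202 * (√(H : ℝ) * Real.log H)) := Real.log_le_log hq0 hq
  have h2 : Real.log (202 * (√(H : ℝ) * Real.log H)) =
      Real.log 202 + (Real.log H / 2 + Real.log (Real.log H)) := by
    rw [Real.log_mul (by norm_num) (by positivity), Real.log_mul hs0.ne' hL0.ne',
      Real.log_sqrt hH0.le]
  have h3 : Real.log 202 ≤ 8 * Real.log 2 := by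
    have h4 : (8 : ℝ) * Real.log 2 = Real.log (2 ^ 8) := by
      rw [Real.log_pow]; norm_num
    rw [h4]
    exact Real.log_le_log (by norm_num) (by norm_num)
  have h4 : Real.log (Real.log H) ≤ Real.log H := by
    have := Real.log_le_sub_one_of_pos hL0
    linarith
  linarith

theorem line_squares : ∃ C : ℝ, 0 < C ∧ ∀ (H k : ℕ) (c y : ℤ), 2 ≤ H → y ≠ 0 → |y| ≤ 2 ^ k →
    (k : ℝ) ≤ 5 * √(H : ℝ) → ∀ T : Finset ℤ,
    (∀ t ∈ T, |t| ≤ 7 * (H : ℤ) ∧ IsSquare (c + t * y ^ 2)) →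
    (T.card : ℝ) ≤ C * √(H : ℝ) * Real.log H ^ 2 := by
  obtain ⟨x₀, hx0, hodp⟩ := odp_card
  refine ⟨1000000 + 100 * (x₀ : ℝ) ^ 2, by positivity, ?_⟩
  intro H k c y hH hy hyk hk T hT
  have hH' : (2 : ℝ) ≤ H := by exact_mod_cast hH
  have hH0 : (0 : ℝ) < H := by linarith
  have hL : Real.log 2 ≤ Real.log H := Real.log_le_log (by norm_num) hH'
  have hL1 : (0.69 : ℝ) ≤ Real.log H := P6_log2.trans hL
  have hL0 : (0 : ℝ) < Real.log H := by linarith
  have hs0 : (0 : ℝ) < √(H : ℝ) := Real.sqrt_pos.2 hH0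
  have hs2 : √(H : ℝ) * √(H : ℝ) = H := Real.mul_self_sqrt hH0.le
  have hs1 : (1.4 : ℝ) ≤ √(H : ℝ) := by
    apply Real.le_sqrt_of_sq_le
    norm_num
    linarith
  have hsL : (0.9 : ℝ) ≤ √(H : ℝ) * Real.log H := by nlinarith
  have hTcard : T.card ≤ 14 * H + 1 := by
    have hsub : T ⊆ Icc (-(7 * (H : ℤ))) (7 * (H : ℤ)) := by
      intro t ht
      have := abs_le.1 (hT t ht).1
      exact mem_Icc.2 this
    have := card_le_card hsub
    rw [Int.card_Icc] at this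
    omega
  set q : ℕ := ⌈200 * (√(H : ℝ) * Real.log H)⌉₊ with hqdef
  have hq1 : 200 * (√(H : ℝ) * Real.log H) ≤ q := Nat.le_ceil _
  have hq2 : (q : ℝ) < 200 * (√(H : ℝ) * Real.log H) + 1 :=
    Nat.ceil_lt_add_one (by positivity)
  have hq3 : (q : ℝ) ≤ 202 * (√(H : ℝ) * Real.log H) := by linarith
  have hq0 : (0 : ℝ) < q := by linarith
  by_cases hcase : x₀ ≤ q
  · have hc := hodp q hcase
    have hlq := P6_logq H hH q hq0 hq3
    have hlq0 : 0 < Real.log q := by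
      apply Real.log_pos
      have h3 : 3 ≤ q := hx0.trans hcase
      have h4 : (3 : ℝ) ≤ q := by exact_mod_cast h3
      linarith
    have hcard : 10 * √(H : ℝ) ≤ ((odp q).card : ℝ) := by
      refine le_trans ?_ hc
      rw [le_div_iff₀ (by positivity)]
      have h5 : 10 * √(H : ℝ) * (2 * Real.log q) ≤ 10 * √(H : ℝ) * (2 * (10 * Real.log H)) := by
        apply mul_le_mul_of_nonneg_left _ (by positivity)
        linarith
      refine h5.trans (le_trans (le_of_eq ?_) hq1)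
      ring
    have hdv := odp_dvd q k y hy hyk
    set P : Finset ℕ := (odp q).filter (fun p : ℕ => ¬ (p : ℤ) ∣ y) with hPdef
    have hsplit := card_filter_add_card_filter_not (s := odp q) (fun p : ℕ => (p : ℤ) ∣ y)
    have hPc : √(H : ℝ) ≤ (P.card : ℝ) := by
      have h6 : ((odp q).card : ℝ) = (((odp q).filter (fun p : ℕ => (p : ℤ) ∣ y)).card : ℝ) +
          (P.card : ℝ) := by
        rw [← hsplit]; push_cast; rfl
      have h7 : (((odp q).filter (fun p : ℕ => (p : ℤ) ∣ y)).card : ℝ) ≤ k := by exact_mod_cast hdv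
      linarith
    have hal := sq_ap P q (max (14 * H + 1) (q ^ 2)) (by
        have : 0 < 14 * H + 1 := by omega
        exact lt_of_lt_of_le this (le_max_left _ _)) (le_max_right _ _) (by
        intro p hp
        have h8 := mem_filter.1 (mem_filter.1 hp).1
        have h9 := mem_Icc.1 h8.1
        exact ⟨h8.2, by omega, h9.2⟩) c (y ^ 2) (by
        intro p hp hdvd
        have hpp : p.Prime := (mem_filter.1 (mem_filter.1 hp).1).2
        have hpp' : Prime (p : ℤ) := Nat.prime_iff_prime_int.1 hpp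
        exact (mem_filter.1 hp).2 (hpp'.dvd_of_dvd_pow hdvd)) (-(7 * (H : ℤ))) T (by
        intro t ht
        have h10 := abs_le.1 (hT t ht).1
        refine mem_Ico.2 ⟨h10.1, ?_⟩
        have h11 : 14 * H + 1 ≤ max (14 * H + 1) (q ^ 2) := le_max_left _ _
        have h12 : ((14 * H + 1 : ℕ) : ℤ) ≤ ((max (14 * H + 1) (q ^ 2) : ℕ) : ℤ) := by
          exact_mod_cast h11
        have h13 : ((14 * H + 1 : ℕ) : ℤ) = 14 * (H : ℤ) + 1 := by push_cast; ring
        linarith [h10.2]) (fun t ht => (hT t ht).2)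
    have hN : ((max (14 * H + 1) (q ^ 2) : ℕ) : ℝ) ≤ 14 * H + 1 + (q : ℝ) ^ 2 := by
      have h14 : max (14 * H + 1) (q ^ 2) ≤ (14 * H + 1) + q ^ 2 := by
        apply max_le <;> omega
      exact_mod_cast h14
    have hq4 : (q : ℝ) ^ 2 ≤ 40804 * ((H : ℝ) * Real.log H ^ 2) := by
      have h15 : (q : ℝ) ^ 2 ≤ (202 * (√(H : ℝ) * Real.log H)) ^ 2 :=
        pow_le_pow_left₀ hq0.le hq3 2
      have h16 : (202 * (√(H : ℝ) * Real.log H)) ^ 2 =
          40804 * ((√(H : ℝ) * √(H : ℝ)) * Real.log H ^ 2) := by ring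
      rw [h16, hs2] at h15
      exact h15
    have hL2 : (0.47 : ℝ) ≤ Real.log H ^ 2 := by nlinarith
    have hHL : 14 * (H : ℝ) + 1 ≤ 40 * ((H : ℝ) * Real.log H ^ 2) := by nlinarith
    have h17 : √(H : ℝ) * (T.card : ℝ) ≤ 18 * (40844 * ((H : ℝ) * Real.log H ^ 2)) := by
      have h18 : √(H : ℝ) * (T.card : ℝ) ≤ (P.card : ℝ) * T.card :=
        mul_le_mul_of_nonneg_right hPc (Nat.cast_nonneg _)
      linarith
    have h19 : √(H : ℝ) * (T.card : ℝ) ≤
        √(H : ℝ) * ((1000000 + 100 * (x₀ : ℝ) ^ 2) * √(H : ℝ) * Real.log H ^ 2) := by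
      have h20 : √(H : ℝ) * ((1000000 + 100 * (x₀ : ℝ) ^ 2) * √(H : ℝ) * Real.log H ^ 2) =
          (1000000 + 100 * (x₀ : ℝ) ^ 2) * ((√(H : ℝ) * √(H : ℝ)) * Real.log H ^ 2) := by ring
      rw [h20, hs2]
      have h21 : 0 ≤ (H : ℝ) * Real.log H ^ 2 := by positivity
      have h22 : 0 ≤ (x₀ : ℝ) ^ 2 * ((H : ℝ) * Real.log H ^ 2) := by positivity
      nlinarith
    exact le_of_mul_le_mul_left h19 hs0
  · push Not at hcase
    have hcq : (q : ℝ) < x₀ := by exact_mod_cast hcase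
    have h1 : √(H : ℝ) ≤ x₀ := by nlinarith
    have h2 : (T.card : ℝ) ≤ 14 * H + 1 := by exact_mod_cast hTcard
    have h3 : (H : ℝ) ≤ (x₀ : ℝ) * √(H : ℝ) := by
      calc (H : ℝ) = √(H : ℝ) * √(H : ℝ) := hs2.symm
        _ ≤ (x₀ : ℝ) * √(H : ℝ) := mul_le_mul_of_nonneg_right h1 hs0.le
    have hL2 : (0.47 : ℝ) ≤ Real.log H ^ 2 := by nlinarith
    have hx1 : (3 : ℝ) ≤ x₀ := by exact_mod_cast hx0
    have h4 : (x₀ : ℝ) * √(H : ℝ) ≤ (x₀ : ℝ) ^ 2 * √(H : ℝ) := by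
      apply mul_le_mul_of_nonneg_right _ hs0.le
      nlinarith
    have h5 : (14 : ℝ) * H + 1 ≤ 15 * H := by linarith
    have h6 : 15 * ((x₀ : ℝ) ^ 2 * √(H : ℝ)) ≤
        (100 * (x₀ : ℝ) ^ 2) * √(H : ℝ) * Real.log H ^ 2 := by
      have h7 : 0 ≤ (x₀ : ℝ) ^ 2 * √(H : ℝ) := by positivity
      nlinarith
    have h8 : 0 ≤ 1000000 * √(H : ℝ) * Real.log H ^ 2 := by positivity
    calc (T.card : ℝ) ≤ 15 * H := h2.trans h5
      _ ≤ 15 * ((x₀ : ℝ) ^ 2 * √(H : ℝ)) := by linarith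
      _ ≤ (100 * (x₀ : ℝ) ^ 2) * √(H : ℝ) * Real.log H ^ 2 := h6
      _ ≤ 1000000 * √(H : ℝ) * Real.log H ^ 2 + (100 * (x₀ : ℝ) ^ 2) * √(H : ℝ) * Real.log H ^ 2 := by
          linarith
      _ = _ := by ring

end TP55
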