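import Pool.Agent.LibTP55.Defs
import Pool.Agent.LibTP55.P3
import Pool.Agent.LibTP55.P5
import Pool.Agent.LibN78.C5

/-!
ROW [TP55 P7].  One scale, first coordinate not zero.
PROOF.  Put `Q1 = QQ d j x1 y1`, `Q2 = QQ d j x2 y2`, `K1 = 5/2 H Q1/d`, `K2 = 5/2 H √(Q1 Q2)/d`, `K3 = 5/2 H Q2/d`.  Map
`v = (a, w, m) ↦ (F1, B, F2) = (FF d a w m x1 y1, BB d a w m x1 y1 x2 y2, FF d a w m x2 y2)`: injective (`basis_inj`), in the box
(`coeff_bound` and `BB_self`, as in `N78.C9_phi_le`).  `m = FF d a w m 1 0 = F1 y2^2 - 2 B y1 y2 + F2 y1^2` (`basis_FF`, `s = 1`, `t = 0`) is a square.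
`S` nonempty gives `1 ≤ |F1| ≤ K1`; `K1 ≤ K2 ≤ K3`; `y1, y2` coprime (determinant one).  `box_squares`.
`K1 K2 K3 = (5/2 H/d)^3 (Q1 Q2)^(3/2) ≤ 200 H^3/(d √d)`; `K1 ≥ 5/2 H * 2/d = 5 H/d` (`two_le_QQ`), so `1/√K1 ≤ √(d/(5H))`;
`Q1 ≤ √(Q1 Q2) ≤ (5/2) √d`, `K1 ≤ 25/4 H/√d ≤ 5 H`, `1 + log K1 ≤ 1 + log (5H) ≤ 6 log H`.  Total `≤ C (H^3/(d √d)) √(d/H) log H = C H^2 √H/d * log H`.
-/

namespace TP55

open N78

private def P7_phi (d x1 y1 x2 y2 : ℤ) (v : ℤ × ℤ × ℤ) : ℤ × ℤ × ℤ :=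
  (FF d v.1 v.2.1 v.2.2 x1 y1, BB d v.1 v.2.1 v.2.2 x1 y1 x2 y2, FF d v.1 v.2.1 v.2.2 x2 y2)

private theorem P7_phi_inj (d x1 y1 x2 y2 : ℤ) (hdet : x1 * y2 - x2 * y1 = 1) :
    Function.Injective (P7_phi d x1 y1 x2 y2) := by
  intro v v' h
  have h1 := Prod.ext_iff.1 h
  have h2 := Prod.ext_iff.1 h1.2
  obtain ⟨e1, e2, e3⟩ := basis_inj d v.1 v.2.1 v.2.2 v'.1 v'.2.1 v'.2.2 x1 y1 x2 y2 hdet h1.1 h2.2 h2.1
  exact Prod.ext e1 (Prod.ext e2 e3)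

private theorem P7_sqrtQ (d : ℝ) (hd0 : 0 < d) (Q : ℝ) (hQQ : Q ≤ 16 / 3 * d) :
    √Q ≤ 231 / 100 * √d := by
  apply Real.sqrt_le_iff.2
  constructor
  · positivity
  · have : (231 / 100 * √d) ^ 2 = (231 / 100) ^ 2 * d := by
      rw [mul_pow, Real.sq_sqrt hd0.le]
    rw [this]
    nlinarith

private theorem P7_prod (d : ℝ) (hd0 : 0 < d) (H Q1 Q2 : ℝ) (hH : 0 ≤ H) (h0 : 0 < Q1) (hQ : Q1 ≤ Q2)
    (hQQ : Q1 * Q2 ≤ 16 / 3 * d) :
    (5 / 2 * H * Q1 / d) * (5 / 2 * H * √(Q1 * Q2) / d) * (5 / 2 * H * Q2 / d) ≤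
      200 * (H ^ 3 / (d * √d)) := by
  have hs0 : 0 < √d := Real.sqrt_pos.2 hd0
  have hs : √d * √d = d := Real.mul_self_sqrt hd0.le
  have hr := P7_sqrtQ d hd0 (Q1 * Q2) hQQ
  have hQ0 : 0 ≤ Q1 * Q2 := mul_nonneg h0.le (h0.le.trans hQ)
  have hprod : (5 / 2 * H * Q1 / d) * (5 / 2 * H * √(Q1 * Q2) / d) * (5 / 2 * H * Q2 / d) =
      (5 / 2 * H / d) ^ 3 * ((Q1 * Q2) * √(Q1 * Q2)) := by
    field_simp
  have h2 : (Q1 * Q2) * √(Q1 * Q2) ≤ (16 / 3 * d) * (231 / 100 * √d) :=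
    mul_le_mul hQQ hr (Real.sqrt_nonneg _) (by positivity)
  rw [hprod]
  have h3 : (5 / 2 * H / d) ^ 3 * ((Q1 * Q2) * √(Q1 * Q2)) ≤
      (5 / 2 * H / d) ^ 3 * ((16 / 3 * d) * (231 / 100 * √d)) :=
    mul_le_mul_of_nonneg_left h2 (by positivity)
  refine h3.trans ?_
  have h4 : (5 / 2 * H / d) ^ 3 * ((16 / 3 * d) * (231 / 100 * √d)) =
      ((5 / 2) ^ 3 * (16 / 3) * (231 / 100)) * (H ^ 3 / (d * √d)) * ((√d * √d) / d) := by
    field_simp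
  rw [h4, hs, div_self hd0.ne', mul_one]
  apply mul_le_mul_of_nonneg_right _ (by positivity)
  norm_num

private theorem P7_log (H : ℝ) (hH : 2 ≤ H) (K : ℝ) (hK0 : 0 < K) (hK : K ≤ 5 * H) :
    1 + Real.log K ≤ 5 * Real.log H := by
  have h2 := Real.log_two_gt_d9
  have hL : Real.log 2 ≤ Real.log H := Real.log_le_log (by norm_num) hH
  have h1 : Real.log K ≤ Real.log (5 * H) := Real.log_le_log hK0 hK
  rw [Real.log_mul (by norm_num) (by linarith)] at h1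
  have h5 : Real.log 5 ≤ 7 / 3 * Real.log 2 := by
    have h6 : (3 : ℝ) * Real.log 5 ≤ 7 * Real.log 2 := by
      have e1 : (3 : ℝ) * Real.log 5 = Real.log (5 ^ 3) := by rw [Real.log_pow]; norm_num
      have e2 : (7 : ℝ) * Real.log 2 = Real.log (2 ^ 7) := by rw [Real.log_pow]; norm_num
      rw [e1, e2]
      exact Real.log_le_log (by norm_num) (by norm_num)
    linarith
  linarith

theorem count_ne : ∃ C : ℝ, 0 < C ∧ ∀ (H : ℕ) (d : ℤ) (j : ℕ) (x1 y1 x2 y2 : ℤ), 2 ≤ H → 2 ≤ d →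
    ¬ IsSquare d → x1 * y2 - x2 * y1 = 1 → 0 < QQ d j x1 y1 → QQ d j x1 y1 ≤ QQ d j x2 y2 →
    QQ d j x1 y1 * QQ d j x2 y2 ≤ 16 / 3 * d → ∀ S : Finset (ℤ × ℤ × ℤ),
    (∀ v ∈ S, v ∈ Vec H d j ∧ FF d v.1 v.2.1 v.2.2 x1 y1 ≠ 0) →
    (S.card : ℝ) ≤ C * ((H : ℝ) ^ 2 * √(H : ℝ) / d) * Real.log H := by
  classical
  obtain ⟨C, hC, hbs⟩ := box_squares
  refine ⟨1000 * C, by positivity, ?_⟩
  intro H d j x1 y1 x2 y2 hH hd hns hdet h0 hQ hQQ S hS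
  have hH' : (2 : ℝ) ≤ H := by exact_mod_cast hH
  have hH0 : (0 : ℝ) < H := by linarith
  have hd2 : (2 : ℝ) ≤ (d : ℝ) := by exact_mod_cast hd
  have hd0 : (0 : ℝ) < (d : ℝ) := by linarith
  have hL0 : 0 < Real.log (H : ℝ) := Real.log_pos (by linarith)
  have hsd0 : 0 < √(d : ℝ) := Real.sqrt_pos.2 hd0
  have hsd : √(d : ℝ) * √(d : ℝ) = d := Real.mul_self_sqrt hd0.le
  have hsd1 : (1.4 : ℝ) ≤ √(d : ℝ) := by
    apply Real.le_sqrt_of_sq_le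
    norm_num
    linarith
  have hsH0 : 0 < √(H : ℝ) := Real.sqrt_pos.2 hH0
  have hsH : √(H : ℝ) * √(H : ℝ) = H := Real.mul_self_sqrt hH0.le
  rcases S.eq_empty_or_nonempty with rfl | ⟨v0, hv0⟩
  · rw [Finset.card_empty]
    push_cast
    positivity
  · have hxy : ¬ (x1 = 0 ∧ y1 = 0) := by
      rintro ⟨rfl, rfl⟩
      simp at hdet
    have hQ2 : 2 ≤ QQ d j x1 y1 := two_le_QQ d hd hns j x1 y1 hxy
    have hcop : IsCoprime y1 y2 := ⟨-x2, x1, by linarith⟩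
    have hbound : ∀ v ∈ S, |((FF d v.1 v.2.1 v.2.2 x1 y1 : ℤ) : ℝ)| ≤ 5 / 2 * H * QQ d j x1 y1 / d ∧
        |((BB d v.1 v.2.1 v.2.2 x1 y1 x2 y2 : ℤ) : ℝ)| ≤
          5 / 2 * H * √(QQ d j x1 y1 * QQ d j x2 y2) / d ∧
        |((FF d v.1 v.2.1 v.2.2 x2 y2 : ℤ) : ℝ)| ≤ 5 / 2 * H * QQ d j x2 y2 / d := by
      intro v hv
      obtain ⟨⟨ha, h1, h2, _⟩, _⟩ := hS v hv
      refine ⟨?_, coeff_bound d hd j H v.1 v.2.1 v.2.2 x1 y1 x2 y2 ha h1 h2, ?_⟩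
      · have := coeff_bound d hd j H v.1 v.2.1 v.2.2 x1 y1 x1 y1 ha h1 h2
        rwa [BB_self, Real.sqrt_mul_self h0.le] at this
      · have := coeff_bound d hd j H v.1 v.2.1 v.2.2 x2 y2 x2 y2 ha h1 h2
        rwa [BB_self, Real.sqrt_mul_self (h0.le.trans hQ)] at this
    have hK1 : (1 : ℝ) ≤ 5 / 2 * H * QQ d j x1 y1 / d := by
      refine le_trans ?_ (hbound v0 hv0).1
      have h2 : (1 : ℤ) ≤ |FF d v0.1 v0.2.1 v0.2.2 x1 y1| := Int.one_le_abs (hS v0 hv0).2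
      exact_mod_cast h2
    have hQm : QQ d j x1 y1 ≤ √(QQ d j x1 y1 * QQ d j x2 y2) := by
      apply Real.le_sqrt_of_sq_le
      rw [pow_two]
      exact mul_le_mul_of_nonneg_left hQ h0.le
    have hQm2 : √(QQ d j x1 y1 * QQ d j x2 y2) ≤ QQ d j x2 y2 := by
      apply Real.sqrt_le_iff.2
      refine ⟨h0.le.trans hQ, ?_⟩
      rw [pow_two]
      exact mul_le_mul_of_nonneg_right hQ (h0.le.trans hQ)
    have hK12 : 5 / 2 * H * QQ d j x1 y1 / d ≤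
        5 / 2 * H * √(QQ d j x1 y1 * QQ d j x2 y2) / d :=
      div_le_div_of_nonneg_right (mul_le_mul_of_nonneg_left hQm (by positivity)) hd0.le
    have hK23 : 5 / 2 * H * √(QQ d j x1 y1 * QQ d j x2 y2) / d ≤ 5 / 2 * H * QQ d j x2 y2 / d :=
      div_le_div_of_nonneg_right (mul_le_mul_of_nonneg_left hQm2 (by positivity)) hd0.le
    have hcard : (S.image (P7_phi d x1 y1 x2 y2)).card = S.card :=
      Finset.card_image_of_injective _ (P7_phi_inj d x1 y1 x2 y2 hdet)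
    have hbox := hbs (5 / 2 * H * QQ d j x1 y1 / d)
      (5 / 2 * H * √(QQ d j x1 y1 * QQ d j x2 y2) / d) (5 / 2 * H * QQ d j x2 y2 / d) y1 y2
      hK1 hK12 hK23 hcop (S.image (P7_phi d x1 y1 x2 y2)) (by
        intro t ht
        obtain ⟨v, hv, rfl⟩ := Finset.mem_image.1 ht
        obtain ⟨e1, e2, e3⟩ := hbound v hv
        refine ⟨e1, e2, e3, ?_⟩
        have h4 := basis_FF d v.1 v.2.1 v.2.2 x1 y1 x2 y2 1 0 hdet
        have h5 : FF d v.1 v.2.1 v.2.2 1 0 = v.2.2 := by unfold FF; ring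
        rw [h5] at h4
        have h6 : (P7_phi d x1 y1 x2 y2 v).1 * y2 ^ 2 - 2 * (P7_phi d x1 y1 x2 y2 v).2.1 * y1 * y2 +
            (P7_phi d x1 y1 x2 y2 v).2.2 * y1 ^ 2 = v.2.2 := by
          rw [h4]
          unfold P7_phi
          ring
        rw [h6]
        exact (hS v hv).1.2.2.2.1)
    rw [hcard] at hbox
    refine hbox.trans ?_
    set K : ℝ := 5 / 2 * H * QQ d j x1 y1 / d with hKdef
    have hK0 : 0 < K := by linarith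
    have hsK0 : 0 < √K := Real.sqrt_pos.2 hK0
    have hprod := P7_prod d hd0 H _ _ hH0.le h0 hQ hQQ
    rw [← hKdef] at hprod
    have hK5 : K ≤ 5 * H := by
      have h1 : QQ d j x1 y1 ≤ 231 / 100 * √(d : ℝ) := hQm.trans (P7_sqrtQ d hd0 _ hQQ)
      rw [hKdef, div_le_iff₀ hd0]
      have h2 : QQ d j x1 y1 ≤ 2 * (d : ℝ) := by nlinarith
      nlinarith
    have hlog := P7_log H hH' K hK0 hK5
    have hKH : √(H : ℝ) / √(d : ℝ) ≤ √K := by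
      rw [← Real.sqrt_div hH0.le]
      apply Real.sqrt_le_sqrt
      rw [hKdef]
      apply div_le_div_of_nonneg_right _ hd0.le
      nlinarith
    rw [div_le_iff₀ hsK0]
    have hlog0 : 0 ≤ 1 + Real.log K := by
      have := Real.log_nonneg hK1
      linarith
    have hX0 : 0 < (H : ℝ) ^ 3 / (d * √(d : ℝ)) := by positivity
    calc C * (K * (5 / 2 * H * √(QQ d j x1 y1 * QQ d j x2 y2) / d) *
            (5 / 2 * H * QQ d j x2 y2 / d)) * (1 + Real.log K)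
        ≤ C * (200 * ((H : ℝ) ^ 3 / (d * √(d : ℝ)))) * (5 * Real.log H) := by
          apply mul_le_mul _ hlog hlog0 (by positivity)
          exact mul_le_mul_of_nonneg_left hprod hC.le
      _ = 1000 * C * ((H : ℝ) ^ 2 * √(H : ℝ) / d) * Real.log H * (√(H : ℝ) / √(d : ℝ)) := by
          have e1 : (H : ℝ) ^ 3 = (H : ℝ) ^ 2 * (√(H : ℝ) * √(H : ℝ)) := by rw [hsH]; ring
          rw [e1]
          field_simp
          norm_num
      _ ≤ 1000 * C * ((H : ℝ) ^ 2 * √(H : ℝ) / d) * Real.log H * √K :=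
          mul_le_mul_of_nonneg_left hKH (by positivity)

end TP55
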