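import Pool.Agent.LibTP55.Defs
import Pool.Agent.LibTP55.P3
import Pool.Agent.LibTP55.P6
import Pool.Agent.LibN78.C5

/-!
ROW [TP55 P8].  One scale, first coordinate zero.
PROOF.  Same map `v ↦ (F1, B, F2)` as in P7 with `F1 = 0`.  `ee = B^2 - F1 F2 = B^2 ≠ 0` (`basis_ee`), `|d B^2| ≤ H^2`: `B` has at most
`2 H/√d` values.  `m = - 2 B y1 y2 + F2 y1^2` is a nonzero square (`basis_FF`, `s = 1`, `t = 0`), so `y1 ≠ 0`.  `|y1| ≤ 2^j` (`y_le`:
`Q1^2 ≤ Q1 Q2 ≤ 16/3 d`).  `|F2| ≤ K3 = 5/2 H Q2/d`, `Q2 ≤ 16 d/(3 Q1) ≤ 8 d/3` (`two_le_QQ`), so `|F2| ≤ 20/3 H ≤ 7 H`.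
For each `B`: `line_squares` with `c = - 2 B y1 y2`, `y = y1`, `k = j ≤ 5 √H`: `≤ C √H (log H)^2` values of `F2`; `(0, B, F2)` determines `v`
(`basis_inj`).
-/

namespace TP55

open N78

theorem count_eq : ∃ C : ℝ, 0 < C ∧ ∀ (H : ℕ) (d : ℤ) (j : ℕ) (x1 y1 x2 y2 : ℤ), 2 ≤ H → 2 ≤ d →
    ¬ IsSquare d → (j : ℝ) ≤ 5 * √(H : ℝ) → x1 * y2 - x2 * y1 = 1 → 0 < QQ d j x1 y1 →
    QQ d j x1 y1 ≤ QQ d j x2 y2 →
    QQ d j x1 y1 * QQ d j x2 y2 ≤ 16 / 3 * d → ∀ S : Finset (ℤ × ℤ × ℤ),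
    (∀ v ∈ S, v ∈ Vec H d j ∧ FF d v.1 v.2.1 v.2.2 x1 y1 = 0) →
    (S.card : ℝ) ≤ C * ((H : ℝ) * √(H : ℝ) / √(d : ℝ)) * Real.log H ^ 2 := by
  classical
  obtain ⟨C, hC, hline⟩ := line_squares
  refine ⟨2 * C, by positivity, ?_⟩
  intro H d j x1 y1 x2 y2 hH hd hns hj hdet hQ0 hQ12 hQQ S hS
  have hd0 : (0 : ℝ) < (d : ℝ) := by exact_mod_cast (by omega : 0 < d)
  have hsd : 0 < √(d : ℝ) := Real.sqrt_pos.2 hd0
  have hHR : (0 : ℝ) < (H : ℝ) := by exact_mod_cast (by omega : 0 < H)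
  set g : ℤ × ℤ × ℤ → ℤ := fun v => BB d v.1 v.2.1 v.2.2 x1 y1 x2 y2 with hg
  set f : ℤ × ℤ × ℤ → ℤ := fun v => FF d v.1 v.2.1 v.2.2 x2 y2 with hf
  -- facts for each v
  have key : ∀ v ∈ S, g v ≠ 0 ∧ d * g v ^ 2 ≤ (H : ℤ) ^ 2 ∧ y1 ≠ 0 ∧ |f v| ≤ 7 * (H : ℤ) ∧
      IsSquare (-2 * g v * y1 * y2 + f v * y1 ^ 2) := by
    intro v hv
    obtain ⟨⟨ha, hl, hl', hsq, hm, hee, hde⟩, hF⟩ := hS v hv
    have h1 := basis_ee d v.1 v.2.1 v.2.2 x1 y1 x2 y2 hdet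
    rw [hF, zero_mul, sub_zero] at h1
    have h2 : FF d v.1 v.2.1 v.2.2 1 0 = v.2.2 := by unfold FF; ring
    have h3 := basis_FF d v.1 v.2.1 v.2.2 x1 y1 x2 y2 1 0 hdet
    rw [h2, hF] at h3
    have h4 : v.2.2 = -2 * g v * y1 * y2 + f v * y1 ^ 2 := by
      rw [h3, hg, hf]
      ring
    refine ⟨?_, ?_, ?_, ?_, ?_⟩
    · intro h0
      apply hee
      rw [h1]
      have : BB d v.1 v.2.1 v.2.2 x1 y1 x2 y2 = 0 := h0
      rw [this]
      norm_num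
    · have h5 := (le_abs_self _).trans hde
      rw [h1] at h5
      exact h5
    · intro h0
      apply hm
      rw [h4, h0]
      ring
    · have hb := coeff_bound d hd j H v.1 v.2.1 v.2.2 x2 y2 x2 y2 ha hl hl'
      rw [BB_self, Real.sqrt_mul_self (hQ0.le.trans hQ12)] at hb
      have h5 : ¬ (x1 = 0 ∧ y1 = 0) := by
        rintro ⟨rfl, rfl⟩
        simp at hdet
      have h6 := two_le_QQ d hd hns j x1 y1 h5
      have h7 : QQ d j x2 y2 ≤ 8 / 3 * d := by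
        have h8 : 0 ≤ QQ d j x2 y2 := hQ0.le.trans hQ12
        nlinarith
      have h9 : 5 / 2 * (H : ℝ) * QQ d j x2 y2 / d ≤ 20 / 3 * H := by
        rw [div_le_iff₀ hd0]
        nlinarith
      have h10 : |((f v : ℤ) : ℝ)| ≤ 7 * (H : ℝ) := by
        refine hb.trans (h9.trans ?_)
        linarith
      have h11 : ((|f v| : ℤ) : ℝ) ≤ ((7 * (H : ℤ) : ℤ) : ℝ) := by
        push_cast
        exact h10
      exact_mod_cast h11
    · rw [← h4]
      exact hsq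
  rcases S.eq_empty_or_nonempty with hSe | ⟨v0, hv0⟩
  · rw [hSe, Finset.card_empty, Nat.cast_zero]
    positivity
  have hy1 : y1 ≠ 0 := (key v0 hv0).2.2.1
  have hy1j : |y1| ≤ 2 ^ j := by
    apply y_le d hd j x1 y1
    have h8 : 0 ≤ QQ d j x2 y2 := hQ0.le.trans hQ12
    nlinarith
  -- fibres
  have hfib : ∀ b ∈ S.image g, ((S.filter fun v => g v = b).card : ℝ) ≤
      C * √(H : ℝ) * Real.log H ^ 2 := by
    intro b _
    have hcard : ((S.filter fun v => g v = b).image f).card = (S.filter fun v => g v = b).card := by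
      apply Finset.card_image_of_injOn
      intro v hv v' hv' hvv
      rw [Finset.mem_coe, Finset.mem_filter] at hv hv'
      have h1 : FF d v.1 v.2.1 v.2.2 x1 y1 = FF d v'.1 v'.2.1 v'.2.2 x1 y1 := by
        rw [(hS v hv.1).2, (hS v' hv'.1).2]
      have h3 : g v = g v' := by rw [hv.2, hv'.2]
      obtain ⟨e1, e2, e3⟩ := basis_inj d v.1 v.2.1 v.2.2 v'.1 v'.2.1 v'.2.2 x1 y1 x2 y2 hdet h1 hvv h3
      exact Prod.ext e1 (Prod.ext e2 e3)
    rw [← hcard]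
    refine hline H j (-2 * b * y1 * y2) y1 hH hy1 hy1j hj _ ?_
    intro t ht
    rw [Finset.mem_image] at ht
    obtain ⟨v, hv, rfl⟩ := ht
    rw [Finset.mem_filter] at hv
    obtain ⟨-, -, -, k4, k5⟩ := key v hv.1
    refine ⟨k4, ?_⟩
    rw [hv.2] at k5
    exact k5
  -- the number of values of `B`
  have him : ((S.image g).card : ℝ) ≤ 2 * (H / √(d : ℝ)) := by
    set N : ℕ := ⌊(H : ℝ) / √(d : ℝ)⌋₊ with hN
    have hsub : S.image g ⊆ (Finset.Icc (-(N : ℤ)) N).erase 0 := by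
      intro b hb
      rw [Finset.mem_image] at hb
      obtain ⟨v, hv, rfl⟩ := hb
      obtain ⟨k1, k2, -, -, -⟩ := key v hv
      rw [Finset.mem_erase]
      refine ⟨k1, ?_⟩
      have h1 : (d : ℝ) * (g v : ℝ) ^ 2 ≤ (H : ℝ) ^ 2 := by exact_mod_cast k2
      have h2 : √(d : ℝ) * |(g v : ℝ)| ≤ H := by
        apply abs_le_of_sq_le_sq' _ hHR.le |>.2
        rw [mul_pow, sq_abs, Real.sq_sqrt hd0.le]
        exact h1
      have h3 : |(g v : ℝ)| ≤ H / √(d : ℝ) := by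
        rw [le_div_iff₀ hsd, mul_comm]
        exact h2
      have h4 : ((g v).natAbs : ℝ) ≤ H / √(d : ℝ) := by
        rw [Nat.cast_natAbs]
        push_cast
        exact h3
      have h5 : (g v).natAbs ≤ N := Nat.le_floor h4
      rw [Finset.mem_Icc]
      omega
    have h1 := Finset.card_le_card hsub
    have h2 : ((Finset.Icc (-(N : ℤ)) N).erase 0).card = 2 * N := by
      rw [Finset.card_erase_of_mem (by rw [Finset.mem_Icc]; omega), Int.card_Icc]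
      omega
    rw [h2] at h1
    have h3 : ((S.image g).card : ℝ) ≤ 2 * (N : ℝ) := by exact_mod_cast h1
    have h4 : (N : ℝ) ≤ H / √(d : ℝ) := Nat.floor_le (by positivity)
    linarith
  have hsum : (S.card : ℝ) = ∑ b ∈ S.image g, ((S.filter fun v => g v = b).card : ℝ) := by
    rw [Finset.card_eq_sum_card_image g S]
    push_cast
    rfl
  rw [hsum]
  refine (Finset.sum_le_card_nsmul _ _ _ hfib).trans ?_
  rw [nsmul_eq_mul]
  have h0 : 0 ≤ C * √(H : ℝ) * Real.log H ^ 2 := by positivity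
  refine (mul_le_mul_of_nonneg_right him h0).trans (le_of_eq ?_)
  ring

end TP55
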