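import Pool.Agent.LibTP55.P4
import Pool.Agent.LibTP55.P7
import Pool.Agent.LibTP55.P8
import Pool.Agent.LibN78.C4

/-!
ROW [TP55 P9].  Sum over all `2 ≤ d ≤ H^2` and all scales `j ≤ 3 log X`.
PROOF.  For `z ∈ S` take `d, e, u, w`; `z.2 ≠ 0`, so `e ≠ 0` and `d ≤ |d e| ≤ H^2`; `d` squarefree, `≥ 2`, so not a square.  `to_vec` gives `j` and
`v = (z.1, w', u^2) ∈ Vec H d j` with `ee d v = e`, and `z = (v.1, d * ee d v)`.  So `S` is contained in the union over `d ∈ [2, H^2]` not a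
square and `j ≤ ⌊3 log X⌋` of the images of `Vec H d j` under `v ↦ (v.1, d * ee d v)`; choose for every `(d,j)` a basis (`scale_basis`) and a
finite set of representatives in `Vec H d j` (e.g. `T d j` = the image under a choice of `v` of the `z ∈ S` belonging to `(d,j)`), split by
`F1 = 0` or not: `count_ne`, `count_eq` (`j ≤ 3 log X ≤ 3 √H ≤ 5 √H`).  Sum: `∑_{d ≤ H^2} 1/d ≤ 1 + log (H^2) ≤ 4 log H`,
`∑_{d ≤ H^2} 1/√d ≤ 2 H`, `⌊3 log X⌋ + 1 ≤ 5 log X`.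
-/

namespace TP55

open N78

private theorem p9_sqrt (N : ℕ) :
    ∑ i ∈ Finset.range N, (1 : ℝ) / √((i : ℝ) + 1) ≤ 2 * √(N : ℝ) := by
  induction N with
  | zero => simp
  | succ n ih =>
    rw [Finset.sum_range_succ]
    push_cast
    have h0 : 0 < √((n : ℝ) + 1) := Real.sqrt_pos.2 (by positivity)
    have h2 : √(n : ℝ) ^ 2 = n := Real.sq_sqrt (by positivity)
    have h3 : √((n : ℝ) + 1) ^ 2 = n + 1 := Real.sq_sqrt (by positivity)
    have h4 : 1 / √((n : ℝ) + 1) ≤ 2 * (√((n : ℝ) + 1) - √(n : ℝ)) := by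
      rw [div_le_iff₀ h0]
      nlinarith [sq_nonneg (√((n : ℝ) + 1) - √(n : ℝ))]
    linarith

private theorem p9_harm (N : ℕ) :
    ∑ i ∈ Finset.range N, (1 : ℝ) / ((i : ℝ) + 1) ≤ 1 + Real.log N := by
  have h := harmonic_le_one_add_log N
  have h2 : ((harmonic N : ℚ) : ℝ) = ∑ i ∈ Finset.range N, (1 : ℝ) / ((i : ℝ) + 1) := by
    unfold harmonic
    push_cast
    refine Finset.sum_congr rfl fun i _ => ?_
    rw [one_div]
  rw [← h2]
  exact h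

private theorem p9_cell (C1 C2 : ℝ) (hC1 : 0 < C1) (hC2 : 0 < C2)
    (hne : ∀ (H : ℕ) (d : ℤ) (j : ℕ) (x1 y1 x2 y2 : ℤ), 2 ≤ H → 2 ≤ d →
    ¬ IsSquare d → x1 * y2 - x2 * y1 = 1 → 0 < QQ d j x1 y1 → QQ d j x1 y1 ≤ QQ d j x2 y2 →
    QQ d j x1 y1 * QQ d j x2 y2 ≤ 16 / 3 * d → ∀ S : Finset (ℤ × ℤ × ℤ),
    (∀ v ∈ S, v ∈ Vec H d j ∧ FF d v.1 v.2.1 v.2.2 x1 y1 ≠ 0) →
    (S.card : ℝ) ≤ C1 * ((H : ℝ) ^ 2 * √(H : ℝ) / d) * Real.log H)
    (heq : ∀ (H : ℕ) (d : ℤ) (j : ℕ) (x1 y1 x2 y2 : ℤ), 2 ≤ H → 2 ≤ d →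
    ¬ IsSquare d → (j : ℝ) ≤ 5 * √(H : ℝ) → x1 * y2 - x2 * y1 = 1 → 0 < QQ d j x1 y1 →
    QQ d j x1 y1 ≤ QQ d j x2 y2 →
    QQ d j x1 y1 * QQ d j x2 y2 ≤ 16 / 3 * d → ∀ S : Finset (ℤ × ℤ × ℤ),
    (∀ v ∈ S, v ∈ Vec H d j ∧ FF d v.1 v.2.1 v.2.2 x1 y1 = 0) →
    (S.card : ℝ) ≤ C2 * ((H : ℝ) * √(H : ℝ) / √(d : ℝ)) * Real.log H ^ 2)
    (H : ℕ) (hH : 2 ≤ H) (d : ℤ) (hd1 : 1 ≤ d) (j : ℕ) (hj : (j : ℝ) ≤ 5 * √(H : ℝ))
    (S : Finset (ℤ × ℤ)) (hS : ∀ z ∈ S, ¬ IsSquare d ∧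
      ∃ v, v ∈ Vec H d j ∧ z = (v.1, d * ee d v.1 v.2.1 v.2.2)) :
    (S.card : ℝ) ≤ C1 * ((H : ℝ) ^ 2 * √(H : ℝ) / d) * Real.log H +
      C2 * ((H : ℝ) * √(H : ℝ) / √(d : ℝ)) * Real.log H ^ 2 := by
  have hd0 : (0 : ℝ) < d := by exact_mod_cast (by omega : (0 : ℤ) < d)
  have hlog : 0 ≤ Real.log H := Real.log_nonneg (by exact_mod_cast (by omega : 1 ≤ H))
  rcases S.eq_empty_or_nonempty with h0 | ⟨z₀, hz₀⟩
  · rw [h0]
    simp only [Finset.card_empty, Nat.cast_zero]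
    positivity
  · have hns := (hS z₀ hz₀).1
    have hd2 : 2 ≤ d := by
      by_contra h
      have : d = 1 := by omega
      exact hns ⟨1, by rw [this]; norm_num⟩
    obtain ⟨x1, y1, x2, y2, h1, h2, h3, h4⟩ := scale_basis d hd2 j
    have hex : ∀ z, ∃ v : ℤ × ℤ × ℤ, z ∈ S → v ∈ Vec H d j ∧
        z = (v.1, d * ee d v.1 v.2.1 v.2.2) := by
      intro z
      by_cases hz : z ∈ S
      · obtain ⟨v, hv⟩ := (hS z hz).2
        exact ⟨v, fun _ => hv⟩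
      · exact ⟨0, fun h => absurd h hz⟩
    choose f hf using hex
    have hinj : Set.InjOn f S := by
      intro z hz z' hz' he
      rw [(hf z hz).2, (hf z' hz').2, he]
    have hcard : (S.image f).card = S.card := Finset.card_image_of_injOn hinj
    have hvec : ∀ v ∈ S.image f, v ∈ Vec H d j := by
      intro v hv
      obtain ⟨z, hz, rfl⟩ := Finset.mem_image.1 hv
      exact (hf z hz).1
    have h5 := hne H d j x1 y1 x2 y2 hH hd2 hns h1 h2 h3 h4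
      ((S.image f).filter fun v => FF d v.1 v.2.1 v.2.2 x1 y1 ≠ 0) (fun v hv =>
        ⟨hvec v (Finset.mem_filter.1 hv).1, (Finset.mem_filter.1 hv).2⟩)
    have h6 := heq H d j x1 y1 x2 y2 hH hd2 hns hj h1 h2 h3 h4
      ((S.image f).filter fun v => FF d v.1 v.2.1 v.2.2 x1 y1 = 0) (fun v hv =>
        ⟨hvec v (Finset.mem_filter.1 hv).1, (Finset.mem_filter.1 hv).2⟩)
    have h7 : (S.image f).card ≤
        ((S.image f).filter fun v => FF d v.1 v.2.1 v.2.2 x1 y1 ≠ 0).card +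
        ((S.image f).filter fun v => FF d v.1 v.2.1 v.2.2 x1 y1 = 0).card := by
      refine le_trans (Finset.card_le_card ?_) (Finset.card_union_le _ _)
      intro v hv
      by_cases h : FF d v.1 v.2.1 v.2.2 x1 y1 = 0
      · exact Finset.mem_union_right _ (Finset.mem_filter.2 ⟨hv, h⟩)
      · exact Finset.mem_union_left _ (Finset.mem_filter.2 ⟨hv, h⟩)
    rw [← hcard]
    have h8 : ((S.image f).card : ℝ) ≤
        (((S.image f).filter fun v => FF d v.1 v.2.1 v.2.2 x1 y1 ≠ 0).card : ℝ) +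
        (((S.image f).filter fun v => FF d v.1 v.2.1 v.2.2 x1 y1 = 0).card : ℝ) := by
      exact_mod_cast h7
    linarith

theorem total_ge_two : ∃ C : ℝ, 0 < C ∧ ∀ (H : ℕ) (X : ℝ), 2 ≤ H → (H : ℝ) ≤ X →
    Real.log X ≤ √(H : ℝ) → ∀ S : Finset (ℤ × ℤ),
    (∀ z ∈ S, z ∈ Box H ∧ ∃ d e u w : ℤ, 2 ≤ d ∧ Squarefree d ∧ 0 < u ∧ z.2 = d * e ∧
      w ^ 2 = d * u ^ 4 + z.1 * u ^ 2 + e ∧ (d : ℝ) * (u : ℝ) ^ 2 ≤ X) →
    (S.card : ℝ) ≤ C * ((H : ℝ) ^ 2 * √(H : ℝ)) * Real.log X * Real.log H ^ 2 := by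
  obtain ⟨C1, hC1, hne⟩ := count_ne
  obtain ⟨C2, hC2, heq⟩ := count_eq
  refine ⟨20 * C1 + 10 * C2, by positivity, ?_⟩
  intro H X hH hX hlog S hS
  classical
  have hH1 : (1 : ℝ) ≤ H := by exact_mod_cast (by omega : 1 ≤ H)
  have hH2 : (2 : ℝ) ≤ H := by exact_mod_cast hH
  have hlogH : 0.69 ≤ Real.log H := by
    have h1 : Real.log 2 ≤ Real.log H := Real.log_le_log (by norm_num) hH2
    have h2 := Real.log_two_gt_d9
    linarith
  have hlogX : 0.69 ≤ Real.log X := by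
    have h1 : Real.log H ≤ Real.log X := Real.log_le_log (by linarith) hX
    linarith
  have hsH : 0 ≤ √(H : ℝ) := Real.sqrt_nonneg _
  obtain ⟨J, hJ⟩ : ∃ J : ℕ, J = ⌊3 * Real.log X⌋₊ := ⟨_, rfl⟩
  have hJle : (J : ℝ) ≤ 3 * Real.log X := by
    rw [hJ]
    exact Nat.floor_le (by linarith)
  let Sc : ℕ × ℕ → Finset (ℤ × ℤ) := fun p => S.filter fun z => ¬ IsSquare ((p.1 : ℤ) + 1) ∧
    ∃ v, v ∈ Vec H ((p.1 : ℤ) + 1) p.2 ∧
      z = (v.1, ((p.1 : ℤ) + 1) * ee ((p.1 : ℤ) + 1) v.1 v.2.1 v.2.2)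
  have hcov : S ⊆ (Finset.range (H ^ 2) ×ˢ Finset.range (J + 1)).biUnion Sc := by
    intro z hz
    obtain ⟨hbox, d, e, u, w, hd, hsf, hu, hze, hw, hsz⟩ := hS z hz
    obtain ⟨hb1, hb2, hb3, hb4⟩ := hbox
    have he : e ≠ 0 := by
      rintro rfl
      exact hb3 (by rw [hze]; ring)
    have hns : ¬ IsSquare d := by
      rintro ⟨r, hr⟩
      have h1 := hsf r ⟨1, by rw [hr]; ring⟩
      rcases Int.isUnit_iff.1 h1 with h2 | h2 <;> rw [h2] at hr <;> omega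
    have hdH : d ≤ (H : ℤ) ^ 2 := by
      have h1 : |z.2| = d * |e| := by
        rw [hze, abs_mul, abs_of_nonneg (by omega : 0 ≤ d)]
      have h2 : 1 ≤ |e| := Int.one_le_abs he
      nlinarith
    obtain ⟨j, w', hj, hv, hee⟩ := to_vec H X hH hX d z.1 e u w hd hb1 (by rw [← hze]; exact hb2)
      he (by rw [← hze]; exact hb4) hu hw hsz
    obtain ⟨i, hi⟩ : ∃ i : ℕ, (i : ℤ) + 1 = d := ⟨(d - 1).toNat, by omega⟩
    refine Finset.mem_biUnion.2 ⟨(i, j), Finset.mem_product.2 ⟨Finset.mem_range.2 ?_,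
      Finset.mem_range.2 ?_⟩, Finset.mem_filter.2 ⟨hz, ?_, (z.1, w', u ^ 2), ?_, ?_⟩⟩
    · have : (i : ℤ) < ((H ^ 2 : ℕ) : ℤ) := by
        push_cast
        omega
      exact_mod_cast this
    · have : j ≤ J := by
        rw [hJ]
        exact Nat.le_floor hj
      omega
    · rw [show (((i, j) : ℕ × ℕ).1 : ℤ) + 1 = d from hi]
      exact hns
    · rw [show (((i, j) : ℕ × ℕ).1 : ℤ) + 1 = d from hi]
      exact hv
    · rw [show (((i, j) : ℕ × ℕ).1 : ℤ) + 1 = d from hi]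
      show z = (z.1, d * ee d z.1 w' (u ^ 2))
      rw [hee, ← hze]
  have hcell : ∀ p ∈ Finset.range (H ^ 2) ×ˢ Finset.range (J + 1), ((Sc p).card : ℝ) ≤
      C1 * ((H : ℝ) ^ 2 * √(H : ℝ)) * Real.log H * (1 / ((p.1 : ℝ) + 1)) +
      C2 * ((H : ℝ) * √(H : ℝ)) * Real.log H ^ 2 * (1 / √((p.1 : ℝ) + 1)) := by
    intro p hp
    obtain ⟨hp1, hp2⟩ := Finset.mem_product.1 hp
    have hj : ((p.2 : ℕ) : ℝ) ≤ 5 * √(H : ℝ) := by
      have h1 : p.2 ≤ J := by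
        have := Finset.mem_range.1 hp2
        omega
      have h2 : ((p.2 : ℕ) : ℝ) ≤ J := by exact_mod_cast h1
      linarith
    have h1 := p9_cell C1 C2 hC1 hC2 hne heq H hH ((p.1 : ℤ) + 1) (by omega) p.2 hj (Sc p)
      (fun z hz => (Finset.mem_filter.1 hz).2)
    push_cast at h1
    refine h1.trans (le_of_eq ?_)
    ring
  have h1 : (S.card : ℝ) ≤ ∑ p ∈ Finset.range (H ^ 2) ×ˢ Finset.range (J + 1),
      ((Sc p).card : ℝ) := by
    have h2 := (Finset.card_le_card hcov).trans Finset.card_biUnion_le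
    exact_mod_cast h2
  have h2 := h1.trans (Finset.sum_le_sum hcell)
  rw [Finset.sum_product] at h2
  simp only [Finset.sum_const, Finset.card_range, nsmul_eq_mul] at h2
  rw [← Finset.mul_sum, Finset.sum_add_distrib, ← Finset.mul_sum, ← Finset.mul_sum] at h2
  have h3 := p9_harm (H ^ 2)
  have h4 := p9_sqrt (H ^ 2)
  have h5 : Real.log ((H ^ 2 : ℕ) : ℝ) = 2 * Real.log H := by
    push_cast
    rw [Real.log_pow]
    norm_num
  have h6 : √((H ^ 2 : ℕ) : ℝ) = H := by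
    push_cast
    exact Real.sqrt_sq (by linarith)
  rw [h5] at h3
  rw [h6] at h4
  have h7 : ∑ i ∈ Finset.range (H ^ 2), (1 : ℝ) / ((i : ℝ) + 1) ≤ 4 * Real.log H := by linarith
  have h8 : ((J + 1 : ℕ) : ℝ) ≤ 5 * Real.log X := by
    push_cast
    linarith
  have hA : 0 ≤ C1 * ((H : ℝ) ^ 2 * √(H : ℝ)) * Real.log H := by positivity
  have hB : 0 ≤ C2 * ((H : ℝ) * √(H : ℝ)) * Real.log H ^ 2 := by positivity
  have h9 : C1 * ((H : ℝ) ^ 2 * √(H : ℝ)) * Real.log H *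
        ∑ i ∈ Finset.range (H ^ 2), (1 : ℝ) / ((i : ℝ) + 1) +
      C2 * ((H : ℝ) * √(H : ℝ)) * Real.log H ^ 2 *
        ∑ i ∈ Finset.range (H ^ 2), (1 : ℝ) / √((i : ℝ) + 1) ≤
      C1 * ((H : ℝ) ^ 2 * √(H : ℝ)) * Real.log H * (4 * Real.log H) +
      C2 * ((H : ℝ) * √(H : ℝ)) * Real.log H ^ 2 * (2 * H) :=
    add_le_add (mul_le_mul_of_nonneg_left h7 hA) (mul_le_mul_of_nonneg_left h4 hB)
  refine h2.trans ?_
  refine (mul_le_mul h8 h9 ?_ (by linarith)).trans (le_of_eq ?_)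
  · exact add_nonneg (mul_nonneg hA (Finset.sum_nonneg fun i _ => by positivity))
      (mul_nonneg hB (Finset.sum_nonneg fun i _ => by positivity))
  · ring

end TP55
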